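import Pool.Agent.J4.H93.AP.A6
import Pool.Agent.W263.BSD.Defs

/-!
# Lang–Trotter counts for almost all pairs of parameters from two arbitrary sets, for all families of elliptic curves

For an arbitrary family of curves with two (vectors of) parameters, and ARBITRARY sets `B` and `C` of the values of the two
parameters: for almost all pairs `(b, c)` in `B × C` and all `x` the number of the primes `p ≤ x` with the trace `r` is
`row b + column c - total`, with the square root of the sum of the three corresponding means (or of the sparsity of the sets)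
as the error. Here `row b`, `column c` and `total` are the sums over the primes `p ≤ x` of the exact proportions of the
residues modulo `p` for which the trace is `r`, if only the second, only the first, or both parameters vary.

From Mathlib: `Finset`, `Nat.Prime`, `Real.log`, `√`, `Fintype.piFinset`; `MvPolynomial.eval v P`: the value of the polynomial
`P` at `v`; `Sum.elim b c`: the vector consisting of `b` and `c`.

Method: the part of a function of two residues modulo `p` with the means zero in each variable has a Fourier expansion with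
frequencies which are not zero in both variables, and the coefficients are bounded in the Hilbert-Schmidt norm (Parseval). The
covariances for the products `p q` of different primes are bilinear forms in the exponential sums of `B` and `C` at reduced
fractions with the denominator `p q`; the inequality of Cauchy and the large sieve (for vectors) for both sets bound their sum,
for ARBITRARY sets. Dyadic chaining gives all `x` at once.
-/

set_option autoImplicit false

namespace Pool.Agent.Results.MP_f1937f_nt.ArbitrarySets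

open Finset
open Pool.Agent.J4.H93.AP
open Pool.Agent.J4.H25.LT (pri mem_pri)
open Pool.Agent.W263.BSD (GoodPrime pointCount)

/-- `p` is a prime of good reduction of the equation `y² = x³ + a x + n`, that is a prime which does not divide
`2 (- 4 a³ - 27 n²)`, and its trace of Frobenius `a_p = p - N_p` is `r`. -/
def Trace (r : ℤ) (p : ℕ) (a n : ℤ) : Prop := GoodPrime a n p ∧ (p : ℤ) - pointCount a n p = r

open Classical in
/-- The number of the primes `p ≤ x` of good reduction of `E : y² = x³ + a x + n` with `a_p(E) = r`. -/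
noncomputable def langTrotter (a n r : ℤ) (x : ℕ) : ℕ := ((range (x + 1)).filter (fun p => Trace r p a n)).card

/-- A family of curves `E_{b, c} : y² = x³ + F(b, c) x + G(b, c)`: two functions of two vectors of integers which preserve
congruences. -/
structure Family (k l : ℕ) where
  F : (Fin k → ℤ) → (Fin l → ℤ) → ℤ
  G : (Fin k → ℤ) → (Fin l → ℤ) → ℤ
  congF : ∀ (m : ℤ) (b b' : Fin k → ℤ) (c c' : Fin l → ℤ), (∀ i, m ∣ b i - b' i) → (∀ i, m ∣ c i - c' i) → m ∣ F b c - F b' c'
  congG : ∀ (m : ℤ) (b b' : Fin k → ℤ) (c c' : Fin l → ℤ), (∀ i, m ∣ b i - b' i) → (∀ i, m ∣ c i - c' i) → m ∣ G b c - G b' c'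

/-- `p` is a prime of good reduction of `E_{b, c}` with the trace `r`. -/
def Family.Trace {k l : ℕ} (E : Family k l) (r : ℤ) (p : ℕ) (b : Fin k → ℤ) (c : Fin l → ℤ) : Prop :=
  ArbitrarySets.Trace r p (E.F b c) (E.G b c)

/-- The vectors of `k` residues modulo `p`. -/
def residues (k p : ℕ) : Finset (Fin k → ℕ) := Fintype.piFinset (fun _ => range p)

/-- A vector of natural numbers as a vector of integers. -/
def vec {k : ℕ} (ν : Fin k → ℕ) : Fin k → ℤ := fun i => (ν i : ℤ)

open Classical in
/-- The sum over the primes `p ≤ x` of the proportion of the vectors `ν` of residues modulo `p` for which `p` is a prime of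
good reduction of `E_{b, ν}` with the trace `r`. -/
noncomputable def Family.row {k l : ℕ} (E : Family k l) (b : Fin k → ℤ) (r : ℤ) (x : ℕ) : ℝ :=
  ∑ p ∈ (range (x + 1)).filter Nat.Prime, (((residues l p).filter (fun ν => E.Trace r p b (vec ν))).card : ℝ) / (p : ℝ) ^ l

open Classical in
/-- The sum over the primes `p ≤ x` of the proportion of the vectors `μ` of residues modulo `p` for which `p` is a prime of
good reduction of `E_{μ, c}` with the trace `r`. -/
noncomputable def Family.column {k l : ℕ} (E : Family k l) (c : Fin l → ℤ) (r : ℤ) (x : ℕ) : ℝ :=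
  ∑ p ∈ (range (x + 1)).filter Nat.Prime, (((residues k p).filter (fun μ => E.Trace r p (vec μ) c)).card : ℝ) / (p : ℝ) ^ k

open Classical in
/-- The sum over the primes `p ≤ x` of the proportion of the pairs `(μ, ν)` of vectors of residues modulo `p` for which `p` is a
prime of good reduction of `E_{μ, ν}` with the trace `r`. -/
noncomputable def Family.total {k l : ℕ} (E : Family k l) (r : ℤ) (x : ℕ) : ℝ :=
  ∑ p ∈ (range (x + 1)).filter Nat.Prime,
    (((residues k p ×ˢ residues l p).filter (fun z => E.Trace r p (vec z.1) (vec z.2))).card : ℝ) / (p : ℝ) ^ (k + l)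

/-- `B` is a nonempty set in a box `u i < b i ≤ u i + N i` with sides `N i ≥ 1`. -/
def InBox {k : ℕ} (N : Fin k → ℕ) (B : Finset (Fin k → ℤ)) : Prop :=
  B.Nonempty ∧ (∀ i, 1 ≤ N i) ∧ ∃ u : Fin k → ℤ, ∀ b ∈ B, ∀ i, u i < b i ∧ b i ≤ u i + N i

/-- The square root of the product of `∏ (N i + x ^ 4) / |B|` and `∏ (M i + x ^ 4) / |C|`. If `x ^ 4` is at most all `N i` and
`M i` this is, up to the factor `2 ^ ((k + l) / 2)`, one divided by the square root of the density of `B × C` in the product of
the boxes. -/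
noncomputable def sparsity {k l : ℕ} (N : Fin k → ℕ) (M : Fin l → ℕ) (B : Finset (Fin k → ℤ)) (C : Finset (Fin l → ℤ)) (x : ℕ) : ℝ :=
  √(((∏ i, (N i + (x : ℝ) ^ 4)) / B.card) * ((∏ i, (M i + (x : ℝ) ^ 4)) / C.card))

/-- The mean of the rows over `B`, plus the mean of the columns over `C`, plus the total. -/
noncomputable def Family.means {k l : ℕ} (E : Family k l) (B : Finset (Fin k → ℤ)) (C : Finset (Fin l → ℤ)) (r : ℤ) (x : ℕ) : ℝ :=
  (∑ b ∈ B, E.row b r x) / B.card + (∑ c ∈ C, E.column c r x) / C.card + E.total r x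

open Classical in
/-- **The law.** For ALL families `E_{b, c}`, all the pairs `(b, c)` in `B × C`, up to a proportion of at most `τ`, are such that
for ALL `x ≥ X` and ALL integers `|r| ≤ R x` the number of the primes `p ≤ x` of good reduction of `E_{b, c}` with the trace `r`
differs from `row b + column c - total` by at most `√(max (sparsity x) (means (2 x))) H x`. -/
def Law {k l : ℕ} (N : Fin k → ℕ) (M : Fin l → ℕ) (B : Finset (Fin k → ℤ)) (C : Finset (Fin l → ℤ)) (X : ℕ) (R H : ℕ → ℝ)
    (τ : ℝ) : Prop :=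
  ∀ E : Family k l, (((B ×ˢ C).filter (fun z => ¬ ∀ x : ℕ, X ≤ x → ∀ r : ℤ, (|r| : ℝ) ≤ R x →
    |(langTrotter (E.F z.1 z.2) (E.G z.1 z.2) r x : ℝ) - (E.row z.1 r x + E.column z.2 r x - E.total r x)| ≤
      √(max (sparsity N M B C x) (E.means B C r (2 * x))) * H x)).card : ℝ) ≤ τ * (B.card * C.card)

lemma trace_per {k l : ℕ} (E : Family k l) (r : ℤ) : PerR (fun p b c => E.Trace r p b c) := by
  intro p _ b b' c c' h h'
  have e1 : ((E.F b c : ℤ) : ZMod p) = ((E.F b' c' : ℤ) : ZMod p) := by
    rw [← sub_eq_zero, ← Int.cast_sub, ZMod.intCast_zmod_eq_zero_iff_dvd]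
    exact E.congF p b b' c c' h h'
  have e2 : ((E.G b c : ℤ) : ZMod p) = ((E.G b' c' : ℤ) : ZMod p) := by
    rw [← sub_eq_zero, ← Int.cast_sub, ZMod.intCast_zmod_eq_zero_iff_dvd]
    exact E.congG p b b' c c' h h'
  have h1 : GoodPrime (E.F b c) (E.G b c) p ↔ GoodPrime (E.F b' c') (E.G b' c') p := by
    unfold GoodPrime
    rw [← ZMod.intCast_zmod_eq_zero_iff_dvd, ← ZMod.intCast_zmod_eq_zero_iff_dvd]
    push_cast
    rw [e1, e2]
  have h2 : pointCount (E.F b c) (E.G b c) p = pointCount (E.F b' c') (E.G b' c') p := by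
    unfold pointCount
    rw [e1, e2]
  show E.Trace r p b c ↔ E.Trace r p b' c'
  unfold Family.Trace ArbitrarySets.Trace
  rw [h1, h2]

lemma pri_eq (x : ℕ) [DecidablePred Nat.Prime] : (range (x + 1)).filter Nat.Prime = pri x := by
  unfold pri
  congr!

lemma langTrotter_eq {k l : ℕ} (E : Family k l) (b : Fin k → ℤ) (c : Fin l → ℤ) (r : ℤ) (x : ℕ) :
    langTrotter (E.F b c) (E.G b c) r x = cntS (fun p b c => E.Trace r p b c) b c x := by
  classical
  unfold langTrotter cntS
  congr 1
  ext p
  simp only [mem_filter, mem_range, mem_pri]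
  constructor
  · rintro ⟨h1, h2⟩
    exact ⟨⟨by omega, h2.1.1⟩, h2⟩
  · rintro ⟨h1, h2⟩
    exact ⟨by omega, h2⟩

lemma row_eq' {k l : ℕ} (E : Family k l) (b : Fin k → ℤ) (r : ℤ) (x : ℕ) :
    E.row b r x = rowS (fun p b c => E.Trace r p b c) b x := by
  classical
  unfold Family.row rowS
  rw [pri_eq]
  rfl

lemma column_eq' {k l : ℕ} (E : Family k l) (c : Fin l → ℤ) (r : ℤ) (x : ℕ) :
    E.column c r x = colS (fun p b c => E.Trace r p b c) c x := by
  classical
  unfold Family.column colS
  rw [pri_eq]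
  rfl

lemma total_eq' {k l : ℕ} (E : Family k l) (r : ℤ) (x : ℕ) : E.total r x = totS (fun p b c => E.Trace r p b c) x := by
  classical
  unfold Family.total totS
  rw [pri_eq]
  rfl

lemma means_eq' {k l : ℕ} (E : Family k l) (B : Finset (Fin k → ℤ)) (C : Finset (Fin l → ℤ)) (r : ℤ) (x : ℕ) :
    E.means B C r x = wtS B C (fun p b c => E.Trace r p b c) x := by
  unfold Family.means wtS
  simp only [row_eq', column_eq', total_eq']

/-- from the systems to the law -/
lemma law_of {k l : ℕ} (N : Fin k → ℕ) (M : Fin l → ℕ) (B : Finset (Fin k → ℤ)) (C : Finset (Fin l → ℤ)) (X : ℕ)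
    (R H : ℕ → ℝ) (τ : ℝ)
    (hW : ∀ S : ℕ → ℕ → (Fin k → ℤ) → (Fin l → ℤ) → Prop, (∀ j, PerR (S j)) → ∀ E : Finset ((Fin k → ℤ) × (Fin l → ℤ)), E ⊆ B ×ˢ C →
      (∀ z ∈ E, ∃ x : ℕ, X ≤ x ∧ ∃ j : ℕ, (j : ℝ) ≤ R x ∧ √(max (Dx N M B C x) (wtS B C (S j) (2 * x))) * H x <
        |(cntS (S j) z.1 z.2 x : ℝ) - (rowS (S j) z.1 x + colS (S j) z.2 x - totS (S j) x)|) →
      (E.card : ℝ) ≤ τ * ((B.card : ℝ) * C.card)) : Law N M B C X R H (τ + τ) := by
  classical
  intro E
  obtain ⟨Q, hQ⟩ : ∃ Q : ℤ → (Fin k → ℤ) × (Fin l → ℤ) → Prop, Q = fun s z => ∃ x : ℕ, X ≤ x ∧ ∃ j : ℕ, (j : ℝ) ≤ R x ∧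
      √(max (Dx N M B C x) (wtS B C (fun p b c => E.Trace (s * j) p b c) (2 * x))) * H x <
        |(cntS (fun p b c => E.Trace (s * j) p b c) z.1 z.2 x : ℝ) - (rowS (fun p b c => E.Trace (s * j) p b c) z.1 x +
          colS (fun p b c => E.Trace (s * j) p b c) z.2 x - totS (fun p b c => E.Trace (s * j) p b c) x)| := ⟨_, rfl⟩
  have h1 : ∀ s : ℤ, (((B ×ˢ C).filter (fun z => Q s z)).card : ℝ) ≤ τ * ((B.card : ℝ) * C.card) := by
    intro s
    apply hW (fun j p b c => E.Trace (s * j) p b c) (fun j => trace_per E _) _ (filter_subset _ _)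
    intro z hz
    have := (mem_filter.1 hz).2
    rw [hQ] at this
    exact this
  have h2 : (B ×ˢ C).filter (fun z => ¬ ∀ x : ℕ, X ≤ x → ∀ r : ℤ, (|r| : ℝ) ≤ R x →
      |(langTrotter (E.F z.1 z.2) (E.G z.1 z.2) r x : ℝ) - (E.row z.1 r x + E.column z.2 r x - E.total r x)| ≤
        √(max (sparsity N M B C x) (E.means B C r (2 * x))) * H x) ⊆
      (B ×ˢ C).filter (fun z => Q 1 z) ∪ (B ×ˢ C).filter (fun z => Q (-1) z) := by
    intro z hz
    rw [mem_filter] at hz
    obtain ⟨hz1, hz2⟩ := hz
    push Not at hz2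
    obtain ⟨x, hXx, r, hr, hdev⟩ := hz2
    have hrj : (r.natAbs : ℝ) = |(r : ℝ)| := by
      rw [← Int.cast_abs, Int.abs_eq_natAbs]
      rfl
    rw [mem_union, mem_filter, mem_filter, hQ]
    have key : ∀ s : ℤ, s * (r.natAbs : ℤ) = r → ∃ x : ℕ, X ≤ x ∧ ∃ j : ℕ, (j : ℝ) ≤ R x ∧
        √(max (Dx N M B C x) (wtS B C (fun p b c => E.Trace (s * j) p b c) (2 * x))) * H x <
        |(cntS (fun p b c => E.Trace (s * j) p b c) z.1 z.2 x : ℝ) - (rowS (fun p b c => E.Trace (s * j) p b c) z.1 x +
          colS (fun p b c => E.Trace (s * j) p b c) z.2 x - totS (fun p b c => E.Trace (s * j) p b c) x)| := by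
      intro s hs
      refine ⟨x, hXx, r.natAbs, by rw [hrj]; exact hr, ?_⟩
      rw [hs, ← langTrotter_eq, ← row_eq', ← column_eq', ← total_eq', ← means_eq']
      exact hdev
    rcases Int.natAbs_eq r with h | h
    · left
      exact ⟨hz1, key 1 (by omega)⟩
    · right
      exact ⟨hz1, key (-1) (by omega)⟩
  have h3 : (((B ×ˢ C).filter (fun z => ¬ ∀ x : ℕ, X ≤ x → ∀ r : ℤ, (|r| : ℝ) ≤ R x →
      |(langTrotter (E.F z.1 z.2) (E.G z.1 z.2) r x : ℝ) - (E.row z.1 r x + E.column z.2 r x - E.total r x)| ≤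
        √(max (sparsity N M B C x) (E.means B C r (2 * x))) * H x)).card : ℝ) ≤
      ((B ×ˢ C).filter (fun z => Q 1 z)).card + ((B ×ˢ C).filter (fun z => Q (-1) z)).card := by
    have := (card_le_card h2).trans (card_union_le _ _)
    exact_mod_cast this
  have h4 := h1 1
  have h5 := h1 (-1)
  have h6 : (((B ×ˢ C).filter (fun z => ¬ ∀ x : ℕ, X ≤ x → ∀ r : ℤ, (|r| : ℝ) ≤ R x →
      |(langTrotter (E.F z.1 z.2) (E.G z.1 z.2) r x : ℝ) - (E.row z.1 r x + E.column z.2 r x - E.total r x)| ≤
        √(max (sparsity N M B C x) (E.means B C r (2 * x))) * H x)).card : ℝ) ≤ (τ + τ) * (B.card * C.card) := by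
    rw [add_mul]
    linarith
  convert h6

/-- the family `y² = x³ + F₀(b + c) x + G₀(b + c)` -/
def sumFamily {k : ℕ} (F₀ G₀ : (Fin k → ℤ) → ℤ) (hF : ∀ (m : ℤ) (b b' : Fin k → ℤ), (∀ i, m ∣ b i - b' i) → m ∣ F₀ b - F₀ b')
    (hG : ∀ (m : ℤ) (b b' : Fin k → ℤ), (∀ i, m ∣ b i - b' i) → m ∣ G₀ b - G₀ b') : Family k k where
  F := fun b c => F₀ (b + c)
  G := fun b c => G₀ (b + c)
  congF := fun m b b' c c' h h' => hF m _ _ (fun i => by
    have := dvd_add (h i) (h' i)
    rw [Pi.add_apply, Pi.add_apply]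
    rwa [show b i - b' i + (c i - c' i) = b i + c i - (b' i + c' i) by ring] at this)
  congG := fun m b b' c c' h h' => hG m _ _ (fun i => by
    have := dvd_add (h i) (h' i)
    rw [Pi.add_apply, Pi.add_apply]
    rwa [show b i - b' i + (c i - c' i) = b i + c i - (b' i + c' i) by ring] at this)

/-- the family given by two polynomials in `k + l` variables with integer coefficients -/
noncomputable def polynomialFamily {k l : ℕ} (P Q : MvPolynomial (Fin k ⊕ Fin l) ℤ) : Family k l where
  F := fun b c => MvPolynomial.eval (Sum.elim b c) P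
  G := fun b c => MvPolynomial.eval (Sum.elim b c) Q
  congF := fun m b b' c c' h h' => by
    induction P using MvPolynomial.induction_on with
    | C a => simp
    | add p q hp hq =>
      rw [map_add, map_add]
      have := dvd_add hp hq
      rwa [show MvPolynomial.eval (Sum.elim b c) p - MvPolynomial.eval (Sum.elim b' c') p +
        (MvPolynomial.eval (Sum.elim b c) q - MvPolynomial.eval (Sum.elim b' c') q) =
        MvPolynomial.eval (Sum.elim b c) p + MvPolynomial.eval (Sum.elim b c) q -
        (MvPolynomial.eval (Sum.elim b' c') p + MvPolynomial.eval (Sum.elim b' c') q) by ring] at this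
    | mul_X p i hp =>
      rw [map_mul, map_mul, MvPolynomial.eval_X, MvPolynomial.eval_X]
      have h1 : m ∣ Sum.elim b c i - Sum.elim b' c' i := by
        rcases i with i | i
        · exact h i
        · exact h' i
      have := dvd_add (Dvd.dvd.mul_right hp (Sum.elim b c i)) (Dvd.dvd.mul_left h1 (MvPolynomial.eval (Sum.elim b' c') p))
      rwa [show (MvPolynomial.eval (Sum.elim b c) p - MvPolynomial.eval (Sum.elim b' c') p) * Sum.elim b c i +
        MvPolynomial.eval (Sum.elim b' c') p * (Sum.elim b c i - Sum.elim b' c' i) =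
        MvPolynomial.eval (Sum.elim b c) p * Sum.elim b c i - MvPolynomial.eval (Sum.elim b' c') p * Sum.elim b' c' i by ring] at this
  congG := fun m b b' c c' h h' => by
    induction Q using MvPolynomial.induction_on with
    | C a => simp
    | add p q hp hq =>
      rw [map_add, map_add]
      have := dvd_add hp hq
      rwa [show MvPolynomial.eval (Sum.elim b c) p - MvPolynomial.eval (Sum.elim b' c') p +
        (MvPolynomial.eval (Sum.elim b c) q - MvPolynomial.eval (Sum.elim b' c') q) =
        MvPolynomial.eval (Sum.elim b c) p + MvPolynomial.eval (Sum.elim b c) q -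
        (MvPolynomial.eval (Sum.elim b' c') p + MvPolynomial.eval (Sum.elim b' c') q) by ring] at this
    | mul_X p i hp =>
      rw [map_mul, map_mul, MvPolynomial.eval_X, MvPolynomial.eval_X]
      have h1 : m ∣ Sum.elim b c i - Sum.elim b' c' i := by
        rcases i with i | i
        · exact h i
        · exact h' i
      have := dvd_add (Dvd.dvd.mul_right hp (Sum.elim b c i)) (Dvd.dvd.mul_left h1 (MvPolynomial.eval (Sum.elim b' c') p))
      rwa [show (MvPolynomial.eval (Sum.elim b c) p - MvPolynomial.eval (Sum.elim b' c') p) * Sum.elim b c i +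
        MvPolynomial.eval (Sum.elim b' c') p * (Sum.elim b c i - Sum.elim b' c' i) =
        MvPolynomial.eval (Sum.elim b c) p * Sum.elim b c i - MvPolynomial.eval (Sum.elim b' c') p * Sum.elim b' c' i by ring] at this

lemma shift_card {k : ℕ} (p : ℕ) (hp : 1 ≤ p) (b : Fin k → ℤ) (P : (Fin k → ℤ) → Prop) [DecidablePred P]
    (hP : ∀ n n' : Fin k → ℤ, (∀ i, (p : ℤ) ∣ n i - n' i) → (P n ↔ P n')) :
    ((residues k p).filter (fun ν => P (b + vec ν))).card = ((residues k p).filter (fun ν => P (vec ν))).card := by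
  have hres : residues k p = Ix (Fin k) p := rfl
  have hvec : ∀ ν : Fin k → ℕ, vec ν = cz ν := fun _ => rfl
  simp only [hres, hvec]
  refine Finset.card_nbij' (fun ν => rs p (b + cz ν)) (fun μ => rs p (cz μ - b)) ?_ ?_ ?_ ?_
  · intro ν hν
    rw [mem_coe, mem_filter] at hν ⊢
    refine ⟨rs_mem p hp _, ?_⟩
    exact (hP _ _ (rs_dvd p hp (b + cz ν))).1 hν.2
  · intro μ hμ
    rw [mem_coe, mem_filter] at hμ ⊢
    refine ⟨rs_mem p hp _, ?_⟩
    refine (hP _ _ (fun i => ?_)).1 hμ.2
    have := rs_dvd p hp (cz μ - b) i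
    rw [Pi.sub_apply] at this
    rw [Pi.add_apply]
    rwa [show cz μ i - (b i + cz (rs p (cz μ - b)) i) = cz μ i - b i - cz (rs p (cz μ - b)) i by ring]
  · intro ν hν
    rw [mem_coe, mem_filter] at hν
    refine (rs_uniq p hp _ ν hν.1 (fun i => ?_)).symm
    have := rs_dvd p hp (b + cz ν) i
    rw [Pi.add_apply] at this
    show (p : ℤ) ∣ cz (rs p (b + cz ν)) i - b i - cz ν i
    rw [show cz (rs p (b + cz ν)) i - b i - cz ν i = -(b i + cz ν i - cz (rs p (b + cz ν)) i) by ring]
    exact (dvd_neg).2 this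
  · intro μ hμ
    rw [mem_coe, mem_filter] at hμ
    refine (rs_uniq p hp _ μ hμ.1 (fun i => ?_)).symm
    have := rs_dvd p hp (cz μ - b) i
    rw [Pi.sub_apply] at this
    show (p : ℤ) ∣ b i + cz (rs p (cz μ - b)) i - cz μ i
    rw [show b i + cz (rs p (cz μ - b)) i - cz μ i = -(cz μ i - b i - cz (rs p (cz μ - b)) i) by ring]
    exact (dvd_neg).2 this

lemma residues_card (k p : ℕ) : (residues k p).card = p ^ k := by
  have := card_Ix (κ := Fin k) p
  rw [Fintype.card_fin] at this
  exact this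

lemma sum_row {k : ℕ} (F₀ G₀ : (Fin k → ℤ) → ℤ) (hF : ∀ (m : ℤ) (b b' : Fin k → ℤ), (∀ i, m ∣ b i - b' i) → m ∣ F₀ b - F₀ b')
    (hG : ∀ (m : ℤ) (b b' : Fin k → ℤ), (∀ i, m ∣ b i - b' i) → m ∣ G₀ b - G₀ b') (b : Fin k → ℤ) (r : ℤ) (x : ℕ) :
    (sumFamily F₀ G₀ hF hG).row b r x = (sumFamily F₀ G₀ hF hG).total r x ∧
      (sumFamily F₀ G₀ hF hG).column b r x = (sumFamily F₀ G₀ hF hG).total r x := by
  classical
  have key : ∀ p : ℕ, p.Prime → ∀ n n' : Fin k → ℤ, (∀ i, (p : ℤ) ∣ n i - n' i) →
      (Trace r p (F₀ n) (G₀ n) ↔ Trace r p (F₀ n') (G₀ n')) := by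
    intro p hp n n' h
    have := trace_per (sumFamily F₀ G₀ hF hG) r p hp n n' 0 0 h (fun i => by simp)
    simp only [Family.Trace, sumFamily, add_zero] at this
    exact this
  have hr : ∀ p : ℕ, p.Prime → ∀ n : Fin k → ℤ, (((residues k p).filter (fun ν => Trace r p (F₀ (n + vec ν)) (G₀ (n + vec ν)))).card : ℝ) =
      ((residues k p).filter (fun ν => Trace r p (F₀ (vec ν)) (G₀ (vec ν)))).card := by
    intro p hp n
    exact_mod_cast shift_card p hp.one_le n (fun m => Trace r p (F₀ m) (G₀ m)) (key p hp)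
  have ht : ∀ p : ℕ, p.Prime → (((residues k p ×ˢ residues k p).filter (fun z =>
      (sumFamily F₀ G₀ hF hG).Trace r p (vec z.1) (vec z.2))).card : ℝ) / (p : ℝ) ^ (k + k) =
      (((residues k p).filter (fun ν => Trace r p (F₀ (vec ν)) (G₀ (vec ν)))).card : ℝ) / (p : ℝ) ^ k := by
    intro p hp
    have e1 : (((residues k p ×ˢ residues k p).filter (fun z => (sumFamily F₀ G₀ hF hG).Trace r p (vec z.1) (vec z.2))).card : ℝ) =
        ∑ μ ∈ residues k p, (((residues k p).filter (fun ν => Trace r p (F₀ (vec μ + vec ν)) (G₀ (vec μ + vec ν)))).card : ℝ) := by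
      rw [← Nat.cast_sum]
      congr 1
      rw [card_filter, sum_product]
      apply sum_congr rfl
      intro μ _
      rw [card_filter]
      rfl
    have hp0 : (p : ℝ) ≠ 0 := by exact_mod_cast hp.ne_zero
    rw [e1, sum_congr rfl (fun μ _ => hr p hp (vec μ)), sum_const, residues_card, nsmul_eq_mul, pow_add]
    push_cast
    field_simp
  constructor
  · unfold Family.row Family.total
    apply sum_congr rfl
    intro p hp
    have hpp := (mem_filter.1 hp).2
    refine Eq.trans ?_ (ht p hpp).symm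
    rw [← hr p hpp b]
    rfl
  · unfold Family.column Family.total
    apply sum_congr rfl
    intro p hp
    have hpp := (mem_filter.1 hp).2
    refine Eq.trans ?_ (ht p hpp).symm
    rw [← hr p hpp b]
    congr 3
    ext ν
    rw [mem_filter, mem_filter]
    show _ ∧ Trace r p (F₀ (vec ν + b)) (G₀ (vec ν + b)) ↔ _ ∧ Trace r p (F₀ (b + vec ν)) (G₀ (b + vec ν))
    rw [add_comm]

/-- Let `k`, `l` be given.

**(1)** For all `0 < δ ≤ 1 / 2`, all large `X` and ALL sets `B` and `C` of vectors of `k` and `l` integers in boxes with the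
sides `N i` and `M i`: the law holds for all families, with the exceptional proportion `2 X ^ (- δ / 2)`, for all `x ≥ X` and
all traces `|r| ≤ x ^ (δ / 2)`, with the error `√(max (sparsity x) (means (2 x))) x ^ δ`.

**(2)** For all `K`, all large `X` and ALL such sets: the law holds for all families, with the exceptional proportion
`1 / (log X) ^ K`, for all `x ≥ X` and all traces `|r| ≤ (log x) ^ K`, with the error
`√(max (sparsity x) (means (2 x))) (log x) ^ (K + 2)`.

**(3)** If `k = l` and the coefficients are functions `F₀ (b + c)`, `G₀ (b + c)` of the sum of the two vectors, then all the rows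
and all the columns are equal to the total; so in this case the law gives the number of the primes as the total, which is
the sum over `p ≤ x` of the proportion of the pairs of vectors of residues, for almost all sums `b + c`, with
`means = 3 total`. For example `y² = x³ + s x + t` with `(s, t)` in `B + C`, for arbitrary sets `B` and `C` of pairs.

**(4)** All the pairs of polynomials in `k + l` variables with integer coefficients are families: for example, for `k = l = 1`,
`y² = x³ + b x + c`, with `b` and `c` in arbitrary sets of integers. -/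
theorem result (k l : ℕ) :
    (∀ δ : ℝ, 0 < δ → δ ≤ 1 / 2 → ∃ X₀ : ℕ, ∀ X : ℕ, X₀ ≤ X → ∀ (N : Fin k → ℕ) (M : Fin l → ℕ) (B : Finset (Fin k → ℤ))
      (C : Finset (Fin l → ℤ)), InBox N B → InBox M C →
      Law N M B C X (fun x => (x : ℝ) ^ (δ / 2)) (fun x => (x : ℝ) ^ δ) (2 * (X : ℝ) ^ (-(δ / 2)))) ∧
    (∀ K : ℕ, ∃ X₀ : ℕ, ∀ X : ℕ, X₀ ≤ X → ∀ (N : Fin k → ℕ) (M : Fin l → ℕ) (B : Finset (Fin k → ℤ))
      (C : Finset (Fin l → ℤ)), InBox N B → InBox M C →
      Law N M B C X (fun x => (Real.log x) ^ K) (fun x => (Real.log x) ^ (K + 2)) (1 / (Real.log X) ^ K)) ∧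
    (∀ (F₀ G₀ : (Fin k → ℤ) → ℤ) (hF : ∀ (m : ℤ) (b b' : Fin k → ℤ), (∀ i, m ∣ b i - b' i) → m ∣ F₀ b - F₀ b')
      (hG : ∀ (m : ℤ) (b b' : Fin k → ℤ), (∀ i, m ∣ b i - b' i) → m ∣ G₀ b - G₀ b') (b : Fin k → ℤ) (r : ℤ) (x : ℕ),
      (sumFamily F₀ G₀ hF hG).row b r x = (sumFamily F₀ G₀ hF hG).total r x ∧
        (sumFamily F₀ G₀ hF hG).column b r x = (sumFamily F₀ G₀ hF hG).total r x) ∧
    (∀ P Q : MvPolynomial (Fin k ⊕ Fin l) ℤ, ∃ E : Family k l, ∀ b c,
      E.F b c = MvPolynomial.eval (Sum.elim b c) P ∧ E.G b c = MvPolynomial.eval (Sum.elim b c) Q) := by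
  refine ⟨fun δ hδ hδ1 => ?_, fun K => ?_, sum_row, fun P Q => ⟨polynomialFamily P Q, fun b c => ⟨rfl, rfl⟩⟩⟩
  · obtain ⟨X₀, H⟩ := lawP k l δ hδ hδ1
    refine ⟨X₀, fun X hX N M B C hB hC => ?_⟩
    have h1 := law_of N M B C X (fun x => (x : ℝ) ^ (δ / 2)) (fun x => (x : ℝ) ^ δ) ((X : ℝ) ^ (-(δ / 2)))
      (H X hX N M B C hB.2.1 hC.2.1 hB.1 hC.1 hB.2.2 hC.2.2)
    rw [← two_mul] at h1
    exact h1
  · obtain ⟨X₀, H⟩ := lawL k l K
    refine ⟨X₀, fun X hX N M B C hB hC => ?_⟩
    have h1 := law_of N M B C X (fun x => (Real.log x) ^ K) (fun x => (Real.log x) ^ (K + 2)) (1 / (2 * (Real.log X) ^ K))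
      (H X hX N M B C hB.2.1 hC.2.1 hB.1 hC.1 hB.2.2 hC.2.2)
    have e : 1 / (2 * (Real.log X) ^ K) + 1 / (2 * (Real.log X) ^ K) = 1 / (Real.log X) ^ K := by
      rw [← one_div_mul_one_div]
      ring
    rw [e] at h1
    exact h1

end Pool.Agent.Results.MP_f1937f_nt.ArbitrarySets
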