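import Pool.Agent.J4.H80.LT.E

/-!
# Traces and angles of Frobenius for almost all elliptic curves whose coefficients are given by linear recurrences modulo a
# prime number `q`, for as few as `q ^ ε` curves

The coefficients of the curves `y² = x³ + A x + B` are (linear forms or polynomials with integer coefficients in) the least
residues modulo a prime `q` of the terms `u_1(n), …, u_r(n)` of linear recurring sequences, `n < T`, for ARBITRARY
`T ≥ q ^ ε`: for example `A` and `B` are the least residues of `2 ^ n` and `3 ^ n`, or of `F_n` and `F_{n + 1}`.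

From Mathlib: `ZMod.val`: the least residue; `Nat.nth Nat.Prime k`: the prime with the index `k`, starting with `k = 0`;
`Set.OrdConnected`: intervals (also `∅`, single points and the whole space); `MvPolynomial.eval t f`: the value of the
polynomial `f` at `t`; `Fin.castAdd m j` and `Fin.natAdd m j`: `j` and `m + j`.

Method: Bourgain's bound for exponential sums, proved here (`Pool.Agent.J4.H80.BGR`) for all finite commutative reduced
rings by the sum-product method (Balog, Szemerédi and Gowers; growth in finite fields; bounded generation of the ring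
from its residue fields). It implies that the vectors of the least residues are uniformly distributed in the residue
classes modulo all integers up to a power of `q`. The high moments of the sums of functions of the residues modulo
consecutive primes are bounded in the starting library (`Pool.Agent.N368.TS`) for sequences with such a distribution, here
uniformly in all families (`Pool.Agent.J4.H80.LT`).
-/

set_option autoImplicit false

namespace Pool.Agent.Results.MP_f1937f_nt.LinearRecurrencesModuloPrimes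

open Finset Polynomial

/-- The sequence `u` satisfies the linear recurrence with the characteristic polynomial `f`. -/
def Recurrence {R : Type} [CommRing R] (f : R[X]) (u : ℕ → R) : Prop :=
  ∀ n, ∑ i ∈ range (f.natDegree + 1), f.coeff i * u (n + i) = 0

/-- `f` is monic and squarefree, `f(0) ≠ 0`, and for `1 ≤ t < q ^ ε` it is coprime to `X ^ t - 1` and does not divide
`g(X ^ t)` for any nonzero `g` of smaller degree (in terms of the roots `α_i` in an algebraic closure: they are distinct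
and not zero, `α_i ^ t ≠ 1`, and the `α_i ^ t` are distinct). -/
structure Generic (ε : ℝ) (q : ℕ) [Fact q.Prime] (f : (ZMod q)[X]) : Prop where
  monic : f.Monic
  sqf : Squarefree f
  coeff_ne : f.coeff 0 ≠ 0
  coprime : ∀ t : ℕ, 1 ≤ t → (t : ℝ) < (q : ℝ) ^ ε → IsCoprime f (X ^ t - 1)
  gen : ∀ t : ℕ, 1 ≤ t → (t : ℝ) < (q : ℝ) ^ ε → ∀ g : (ZMod q)[X], g ≠ 0 → g.natDegree < f.natDegree →
    ¬ f ∣ g.comp (X ^ t)

/-- `f` is monic of positive degree, its complex roots are simple, different from zero and not roots of unity, and the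
quotients of different roots are not roots of unity. -/
structure Nondegenerate (f : ℤ[X]) : Prop where
  monic : f.Monic
  pos : 1 ≤ f.natDegree
  sep : (f.map (Int.castRingHom ℂ)).Separable
  ne_zero : ∀ z : ℂ, aeval z f = 0 → z ≠ 0
  pow_ne_one : ∀ z : ℂ, aeval z f = 0 → ∀ t : ℕ, 1 ≤ t → z ^ t ≠ 1
  pow_ne : ∀ z w : ℂ, aeval z f = 0 → aeval w f = 0 → z ≠ w → ∀ t : ℕ, 1 ≤ t → z ^ t ≠ w ^ t

/-- For all `Y ≥ 1` at most `c Y ^ ε` elements of `E` are `≤ Y`. -/
def Sparse (ε c : ℝ) (E : Set ℕ) : Prop := ∀ Y : ℕ, 1 ≤ Y → ({q : ℕ | q ≤ Y ∧ q ∈ E}.ncard : ℝ) ≤ c * (Y : ℝ) ^ ε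

/-- The number of the solutions `(x, y)` of `y² = x³ + A x + B` modulo `p`. -/
def points (p : ℕ) (A B : ℤ) : ℕ :=
  ((range p ×ˢ range p).filter
    (fun xy : ℕ × ℕ => (p : ℤ) ∣ (xy.2 : ℤ) ^ 2 - ((xy.1 : ℤ) ^ 3 + A * xy.1 + B))).card

/-- The number in `[0, 1]` with `cos (π angle) = (p - c) / (2 p ^ (1 / 2))`. -/
noncomputable def angle (p c : ℕ) : ℝ := Real.arccos (((p : ℝ) - c) / (2 * Real.sqrt p)) / Real.pi

/-- The curve `E : y² = x³ + A x + B` has good reduction at `p ≠ 2`, the trace of Frobenius `a_p = p + 1 - #E(F_p)`, which is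
`p - points p A B`, is in `J`, and the Frobenius angle `θ` in `[0, 1]`, `a_p = 2 p ^ (1 / 2) cos (π θ)`, is in `I`. -/
def Frobenius (J : Set ℤ) (I : Set ℝ) (p : ℕ) (A B : ℤ) : Prop :=
  ¬ (p : ℤ) ∣ 2 * (4 * A ^ 3 + 27 * B ^ 2) ∧ (p : ℤ) - points p A B ∈ J ∧ angle p (points p A B) ∈ I

open Classical in
/-- The number of the `k < K` in `D` such that for all `j` and all `i < s` the curve `y² = x³ + A j x + B j` has the
property, with `J i j` and `I i j`, at the prime with the number `k + i` (the primes are numbered from `0`). For `s = m = 1`,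
`J = {a}` and `I = ℝ` this is the number of the primes `p ≤ x` of good reduction with `a_p = a` if `K = π(x)` and `D = ℕ` (up
to the prime `2`). -/
noncomputable def frobeniusCount {s m : ℕ} (A B : Fin m → ℤ) (J : Fin s → Fin m → Set ℤ) (I : Fin s → Fin m → Set ℝ)
    (D : Set ℕ) (K : ℕ) : ℕ :=
  ((range K).filter (fun k => k ∈ D ∧ ∀ (i : Fin s) (j : Fin m),
    Frobenius (J i j) (I i j) (Nat.nth Nat.Prime (k + i)) (A j) (B j))).card

open Classical in
/-- The proportion of the vectors of residues `t` modulo `p` for which the curves `y² = x³ + A j(t) x + B j(t)` have the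
property, with `J j` and `I j`, for all `j`. -/
noncomputable def proportion {r m : ℕ} (A B : Fin m → MvPolynomial (Fin r) ℤ) (p : ℕ) (J : Fin m → Set ℤ)
    (I : Fin m → Set ℝ) : ℝ :=
  ((Fintype.piFinset (fun _ : Fin r => range p)).filter (fun t => ∀ j,
    Frobenius (J j) (I j) p (MvPolynomial.eval (fun l => (t l : ℤ)) (A j))
      (MvPolynomial.eval (fun l => (t l : ℤ)) (B j)))).card / (p : ℝ) ^ r

open Classical in
/-- The expected number: the sum over the `k < K` in `D` of the product of the proportions at the `s` primes. -/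
noncomputable def model {r s m : ℕ} (A B : Fin m → MvPolynomial (Fin r) ℤ) (J : Fin s → Fin m → Set ℤ)
    (I : Fin s → Fin m → Set ℝ) (D : Set ℕ) (K : ℕ) : ℝ :=
  ∑ k ∈ (range K).filter (fun k => k ∈ D), ∏ i : Fin s, proportion A B (Nat.nth Nat.Prime (k + i)) (J i) (I i)

open Classical in
/-- The proportion of the pairs `(A, B)` of residues modulo `p` such that `y² = x³ + A x + B` has the property. -/
noncomputable def pairProportion (p : ℕ) (J : Set ℤ) (I : Set ℝ) : ℝ :=
  ((range p ×ˢ range p).filter (fun z : ℕ × ℕ => Frobenius J I p z.1 z.2)).card / (p : ℝ) ^ 2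

open Classical in
/-- The sum over the `k < K` in `D` of the products of the proportions of the pairs of coefficients. -/
noncomputable def pairModel {s m : ℕ} (J : Fin s → Fin m → Set ℤ) (I : Fin s → Fin m → Set ℝ) (D : Set ℕ) (K : ℕ) : ℝ :=
  ∑ k ∈ (range K).filter (fun k => k ∈ D), ∏ i : Fin s, ∏ j : Fin m,
    pairProportion (Nat.nth Nat.Prime (k + i)) (J i j) (I i j)

theorem points_congr (p : ℕ) {A A' B B' : ℤ} (hA : (p : ℤ) ∣ A - A') (hB : (p : ℤ) ∣ B - B') :
    points p A B = points p A' B' := by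
  unfold points
  congr 1
  apply filter_congr
  intro xy _
  have h : (p : ℤ) ∣ ((xy.2 : ℤ) ^ 2 - ((xy.1 : ℤ) ^ 3 + A * xy.1 + B)) -
      ((xy.2 : ℤ) ^ 2 - ((xy.1 : ℤ) ^ 3 + A' * xy.1 + B')) := by
    have e : ((xy.2 : ℤ) ^ 2 - ((xy.1 : ℤ) ^ 3 + A * xy.1 + B)) -
      ((xy.2 : ℤ) ^ 2 - ((xy.1 : ℤ) ^ 3 + A' * xy.1 + B')) = -((A - A') * xy.1 + (B - B')) := by ring
    rw [e]
    exact (dvd_add (hA.mul_right _) hB).neg_right
  exact (dvd_iff_dvd_of_dvd_sub h)

theorem disc_congr (p : ℕ) {A A' B B' : ℤ} (hA : (p : ℤ) ∣ A - A') (hB : (p : ℤ) ∣ B - B') :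
    (p : ℤ) ∣ 2 * (4 * A ^ 3 + 27 * B ^ 2) ↔ (p : ℤ) ∣ 2 * (4 * A' ^ 3 + 27 * B' ^ 2) := by
  have h : (p : ℤ) ∣ 2 * (4 * A ^ 3 + 27 * B ^ 2) - 2 * (4 * A' ^ 3 + 27 * B' ^ 2) := by
    have e : 2 * (4 * A ^ 3 + 27 * B ^ 2) - 2 * (4 * A' ^ 3 + 27 * B' ^ 2) =
      (A - A') * (8 * (A ^ 2 + A * A' + A' ^ 2)) + (B - B') * (54 * (B + B')) := by ring
    rw [e]
    exact dvd_add (hA.mul_right _) (hB.mul_right _)
  exact dvd_iff_dvd_of_dvd_sub h

theorem eval_congr {r : ℕ} (f : MvPolynomial (Fin r) ℤ) (p : ℕ) {c d : Fin r → ℤ} (h : ∀ l, (p : ℤ) ∣ c l - d l) :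
    (p : ℤ) ∣ MvPolynomial.eval c f - MvPolynomial.eval d f := by
  induction f using MvPolynomial.induction_on with
  | C z => simp
  | add f g hf hg =>
    rw [map_add, map_add]
    have e : MvPolynomial.eval c f + MvPolynomial.eval c g - (MvPolynomial.eval d f + MvPolynomial.eval d g) =
        (MvPolynomial.eval c f - MvPolynomial.eval d f) + (MvPolynomial.eval c g - MvPolynomial.eval d g) := by ring
    rw [e]
    exact dvd_add hf hg
  | mul_X f i hf =>
    rw [map_mul, map_mul, MvPolynomial.eval_X, MvPolynomial.eval_X]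
    have e : MvPolynomial.eval c f * c i - MvPolynomial.eval d f * d i =
        (MvPolynomial.eval c f - MvPolynomial.eval d f) * c i + MvPolynomial.eval d f * (c i - d i) := by ring
    rw [e]
    exact dvd_add (hf.mul_right _) ((h i).mul_left _)

/-- Intervals in a finite set. -/
theorem interval_repr {α : Type} [LinearOrder α] {J : Set α} (hJ : J.OrdConnected) (T : Finset α) :
    (∃ a ∈ T, ∃ b ∈ T, ∀ t ∈ T, (t ∈ J ↔ t ∈ Set.Icc a b)) ∨ (∀ t ∈ T, t ∉ J) := by
  classical
  by_cases h : (T.filter (fun t => t ∈ J)).Nonempty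
  · left
    have h1 := mem_filter.1 (min'_mem _ h)
    have h2 := mem_filter.1 (max'_mem _ h)
    refine ⟨_, h1.1, _, h2.1, fun t ht => ⟨fun htJ => ?_, fun ht2 => hJ.out h1.2 h2.2 ht2⟩⟩
    have h3 := mem_filter.2 (⟨ht, htJ⟩ : t ∈ T ∧ t ∈ J)
    exact ⟨min'_le _ _ h3, le_max' _ _ h3⟩
  · right
    intro t ht htJ
    exact h ⟨t, mem_filter.2 ⟨ht, htJ⟩⟩

/-- The parameters of the properties. -/
abbrev Par : Type := {J : Set ℤ // J.OrdConnected} × {I : Set ℝ // I.OrdConnected}

/-- The property with its parameter. -/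
def Pr (u : Par) (p : ℕ) (A B : ℤ) : Prop := Frobenius u.1.1 u.2.1 p A B

theorem pr_congr (u : Par) (p : ℕ) (A A' B B' : ℤ) (hA : (p : ℤ) ∣ A - A') (hB : (p : ℤ) ∣ B - B') :
    Pr u p A B ↔ Pr u p A' B' := by
  unfold Pr Frobenius
  rw [points_congr p hA hB, disc_congr p hA hB]

/-- The traces at the primes up to `X`. -/
noncomputable def TX (X : ℕ) : Finset ℤ := Icc (-(X : ℤ) ^ 2) X

/-- The angles at the primes up to `X`. -/
noncomputable def AX (X : ℕ) : Finset ℝ := (range (X + 1) ×ˢ range (X ^ 2 + 1)).image (fun z => angle z.1 z.2)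

open Classical in
/-- Representatives of the parameters for the primes up to `X`. -/
noncomputable def Rg (X : ℕ) : Finset Par :=
  ((TX X ×ˢ TX X) ×ˢ (AX X ×ˢ AX X)).image
    (fun z => (⟨Set.Icc z.1.1 z.1.2, Set.ordConnected_Icc⟩, ⟨Set.Icc z.2.1 z.2.2, Set.ordConnected_Icc⟩))

theorem rg_card (X : ℕ) (hX : 1 ≤ X) : (Rg X).card ≤ 144 * X ^ 144 := by
  classical
  have h1 : (TX X).card ≤ 3 * X ^ 2 := by
    unfold TX
    rw [Int.card_Icc]
    have h2 : ((X : ℤ) + 1 - (-(X : ℤ) ^ 2)).toNat = X + 1 + X ^ 2 := by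
      have : ((X : ℤ) + 1 - (-(X : ℤ) ^ 2)) = ((X + 1 + X ^ 2 : ℕ) : ℤ) := by
        push_cast
        ring
      rw [this, Int.toNat_natCast]
    rw [h2]
    nlinarith
  have h2 : (AX X).card ≤ 4 * X ^ 3 := by
    unfold AX
    refine card_image_le.trans ?_
    rw [card_product, card_range, card_range]
    have h3 : X + 1 ≤ 2 * X := by omega
    have h4 : X ^ 2 + 1 ≤ 2 * X ^ 2 := by
      have : 1 ≤ X ^ 2 := Nat.one_le_pow _ _ hX
      omega
    calc (X + 1) * (X ^ 2 + 1) ≤ (2 * X) * (2 * X ^ 2) := Nat.mul_le_mul h3 h4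
      _ = 4 * X ^ 3 := by ring
  unfold Rg
  refine card_image_le.trans ?_
  rw [card_product, card_product, card_product]
  calc (TX X).card * (TX X).card * ((AX X).card * (AX X).card) ≤
        (3 * X ^ 2) * (3 * X ^ 2) * ((4 * X ^ 3) * (4 * X ^ 3)) :=
        Nat.mul_le_mul (Nat.mul_le_mul h1 h1) (Nat.mul_le_mul h2 h2)
    _ = 144 * X ^ 10 := by ring
    _ ≤ 144 * X ^ 144 := Nat.mul_le_mul_left _ (Nat.pow_le_pow_right hX (by norm_num))

theorem rg_spec (u : Par) (X : ℕ) :
    (∃ u' ∈ Rg X, ∀ p : ℕ, p.Prime → p ≤ X → ∀ A B, (Pr u p A B ↔ Pr u' p A B)) ∨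
      (∀ p : ℕ, p.Prime → p ≤ X → ∀ A B, ¬ Pr u p A B) := by
  classical
  have hpt : ∀ (p : ℕ) (A B : ℤ), p ≤ X → points p A B ≤ X ^ 2 := by
    intro p A B hp
    have h2 : points p A B ≤ p ^ 2 := by
      unfold points
      refine (card_filter_le _ _).trans ?_
      rw [card_product, card_range, pow_two]
    exact h2.trans (Nat.pow_le_pow_left hp 2)
  have h1 : ∀ (p : ℕ) (A B : ℤ), p ≤ X → (p : ℤ) - points p A B ∈ TX X := by
    intro p A B hp
    unfold TX
    rw [mem_Icc]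
    have h2 : (points p A B : ℤ) ≤ (X : ℤ) ^ 2 := by exact_mod_cast hpt p A B hp
    have h3 : (p : ℤ) ≤ X := by exact_mod_cast hp
    constructor <;> omega
  have h2 : ∀ (p : ℕ) (A B : ℤ), p ≤ X → angle p (points p A B) ∈ AX X := by
    intro p A B hp
    unfold AX
    rw [mem_image]
    refine ⟨(p, points p A B), ?_, rfl⟩
    rw [mem_product, mem_range, mem_range]
    exact ⟨Nat.lt_succ_of_le hp, Nat.lt_succ_of_le (hpt p A B hp)⟩
  rcases interval_repr u.1.2 (TX X) with ⟨a, ha, b, hb, hab⟩ | hn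
  · rcases interval_repr u.2.2 (AX X) with ⟨a', ha', b', hb', hab'⟩ | hn
    · left
      refine ⟨(⟨Set.Icc a b, Set.ordConnected_Icc⟩, ⟨Set.Icc a' b', Set.ordConnected_Icc⟩), ?_, ?_⟩
      · unfold Rg
        rw [mem_image]
        refine ⟨((a, b), (a', b')), ?_, rfl⟩
        rw [mem_product, mem_product, mem_product]
        exact ⟨⟨ha, hb⟩, ha', hb'⟩
      · intro p _ hp A B
        unfold Pr Frobenius
        simp only
        rw [hab _ (h1 p A B hp), hab' _ (h2 p A B hp)]
    · right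
      intro p _ hp A B h
      exact hn _ (h2 p A B hp) h.2.2
  · right
    intro p _ hp A B h
    exact hn _ (h1 p A B hp) h.2.1

/-- The traces and the angles of the curves `y² = x³ + A_j x + B_j` are in given intervals at as many blocks of `s`
consecutive primes as expected, up to the square root of the expected number `mod J I D K`. -/
def Law (δ κ C : ℝ) (q : ℕ) (W : Finset (Set ℕ)) {s m : ℕ} (A B : Fin m → ℤ)
    (mod : (Fin s → Fin m → Set ℤ) → (Fin s → Fin m → Set ℝ) → Set ℕ → ℕ → ℝ) : Prop :=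
  ∀ D ∈ W, ∀ K : ℕ, (K : ℝ) ≤ (q : ℝ) ^ κ → ∀ (J : Fin s → Fin m → Set ℤ) (I : Fin s → Fin m → Set ℝ),
    (∀ i j, (J i j).OrdConnected) → (∀ i j, (I i j).OrdConnected) →
      |(frobeniusCount A B J I D K : ℝ) - mod J I D K| ≤ C * (√(max 1 (mod J I D K)) * (K : ℝ) ^ δ * (1 + Real.log q))

open Classical in
/-- The property `P` holds for all `n < T` with at most `C q ^ (- κ) T` exceptions. -/
def AlmostAll (κ C : ℝ) (q T : ℕ) (P : ℕ → Prop) : Prop :=
  (((range T).filter (fun n => ¬ P n)).card : ℝ) ≤ C * (q : ℝ) ^ (-κ) * T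

/-- The vector of the least residues `0 ≤ v_l(n) < q`. -/
def least {r q : ℕ} (v : ℕ → Fin r → ZMod q) (n : ℕ) (l : Fin r) : ℤ := ((v n l).val : ℕ)

/-- The assertion for the sequences `v` of vectors of residues modulo `q` in the class `V`. There are `κ > 0` and `C`, and
`C'(M)` for the matrices `M`, such that for all sequences `v` in the class, all sets `W` of at most `q ^ κ` sets of
indices and all `T ≥ q ^ ε`, with `t_n = c + (v(n) mod q)`:
(1) for all polynomials `A_j`, `B_j` with integer coefficients and all `c` the law holds for `y² = x³ + A_j(t_n) x + B_j(t_n)`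
for almost all `n < T`, with the proportions of the vectors of residues in the expected number;
(2) if the coefficients are `2 m` affine forms in `v(n) mod q` whose linear parts (the rows of `M`) are linearly
independent, then the law holds with the proportions of all pairs of coefficients, with the constant `C'(M)`. -/
def Laws (r m s : ℕ) (ε δ : ℝ) (V : ∀ q : ℕ, (ℕ → Fin r → ZMod q) → Prop) : Prop :=
  ∃ κ C : ℝ, 0 < κ ∧ 0 < C ∧
    (∀ (q : ℕ) (v : ℕ → Fin r → ZMod q), V q v → ∀ (A B : Fin m → MvPolynomial (Fin r) ℤ) (W : Finset (Set ℕ)),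
      (W.card : ℝ) ≤ (q : ℝ) ^ κ → ∀ (c : Fin r → ℤ) (T : ℕ), (q : ℝ) ^ ε ≤ T →
      AlmostAll κ C q T (fun n => Law (s := s) δ κ C q W
        (fun j => MvPolynomial.eval (fun l => c l + least v n l) (A j))
        (fun j => MvPolynomial.eval (fun l => c l + least v n l) (B j)) (fun J I D K => model A B J I D K))) ∧
    (∀ M : Fin (m + m) → Fin r → ℤ, LinearIndependent ℤ M → ∃ C' : ℝ, 0 < C' ∧
      ∀ (q : ℕ) (v : ℕ → Fin r → ZMod q), V q v → ∀ W : Finset (Set ℕ),
      (W.card : ℝ) ≤ (q : ℝ) ^ κ → ∀ (c : Fin (m + m) → ℤ) (T : ℕ), (q : ℝ) ^ ε ≤ T →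
      AlmostAll κ C q T (fun n => Law (s := s) δ κ C' q W
        (fun j => c (Fin.castAdd m j) + ∑ l, M (Fin.castAdd m j) l * least v n l)
        (fun j => c (Fin.natAdd m j) + ∑ l, M (Fin.natAdd m j) l * least v n l)
        (fun J I D K => pairModel J I D K)))

theorem laws_of (r m s : ℕ) (hs : 1 ≤ s) (ε : ℝ) (hε : 0 < ε) (hε1 : ε ≤ 1) (δ : ℝ) (hδ : 0 < δ) (δ' : ℝ) (hδ' : 0 < δ')
    (P₀ : ℕ) (V : ∀ q : ℕ, (ℕ → Fin r → ZMod q) → Prop)
    (hV : ∀ (q : ℕ) (v : ℕ → Fin r → ZMod q), V q v → ∃ _ : NeZero q,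
      (P₀ ≤ q → Pool.Agent.J4.H80.LT.FlatSeq ε δ' q v)) : Laws r m s ε δ V := by
  classical
  obtain ⟨κ, C, h1, h2, h3, hU, hL⟩ := Pool.Agent.J4.H80.LT.seqL (r := r) (m := m) hs δ hδ Pr pr_congr
    ⟨Rg, 144, rg_card, rg_spec⟩ ε hε hε1 δ' hδ' P₀
  refine ⟨κ, C, h1, by linarith, ?_, ?_⟩
  · intro q v hv A B W hW c T hT
    obtain ⟨hq, hfl⟩ := hV q v hv
    have h4 := hU q v hfl (fun j t => MvPolynomial.eval t (A j)) (fun j t => MvPolynomial.eval t (B j))
      (fun p j c d hcd => eval_congr _ p hcd) (fun p j c d hcd => eval_congr _ p hcd) W hW c T hT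
    refine h4.mono le_rfl fun n hn => ?_
    intro D hD K hK J I hJ hI
    have h5 := hn D hD K hK (fun i j => (⟨J i j, hJ i j⟩, ⟨I i j, hI i j⟩))
    have e1 : (frobeniusCount (fun j => MvPolynomial.eval (fun l => c l + least v n l) (A j))
        (fun j => MvPolynomial.eval (fun l => c l + least v n l) (B j)) J I D K : ℝ) =
        Pool.Agent.J4.H80.LT.cntP Pr D K (fun i j => (⟨J i j, hJ i j⟩, ⟨I i j, hI i j⟩))
          (fun j => MvPolynomial.eval (fun l => c l + (((v n l).val : ℕ) : ℤ)) (A j))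
          (fun j => MvPolynomial.eval (fun l => c l + (((v n l).val : ℕ) : ℤ)) (B j)) := rfl
    have e2 : model A B J I D K = Pool.Agent.J4.H80.LT.modP Pr D K (fun i j => (⟨J i j, hJ i j⟩, ⟨I i j, hI i j⟩))
        (fun j t => MvPolynomial.eval t (A j)) (fun j t => MvPolynomial.eval t (B j)) := by
      unfold model proportion Pool.Agent.J4.H80.LT.modP Pool.Agent.N368.TS.av Pool.Agent.N368.TS.bx
        Pool.Agent.TH869.SQ.pr
      refine sum_congr rfl fun k _ => prod_congr rfl fun i _ => ?_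
      rw [card_filter, Nat.cast_sum, Fintype.card_fin]
      congr 1
      refine sum_congr rfl fun t _ => ?_
      rw [Nat.cast_ite, Nat.cast_one, Nat.cast_zero]
      rfl
    simp only [e1, e2]
    exact h5
  · intro M hM
    obtain ⟨C', hC', H⟩ := hL M hM
    refine ⟨C', by linarith, ?_⟩
    intro q v hv W hW c T hT
    obtain ⟨hq, hfl⟩ := hV q v hv
    refine (H q v hfl W hW c T hT).mono le_rfl fun n hn => ?_
    intro D hD K hK J I hJ hI
    exact hn D hD K hK (fun i j => (⟨J i j, hJ i j⟩, ⟨I i j, hI i j⟩))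

/-- **Elliptic curves with coefficients in linear recurring sequences modulo primes.** Let `0 < ε ≤ 1`.

(1) The laws hold for the class of all `r` linearly independent solutions of all generic linear recurrences of order at
most `k` modulo all primes `q`.

(2) Let `u_1, …, u_r` be linearly independent solutions of a nondegenerate linear recurrence over the integers. There is a
set `E` with `O(Y ^ ε)` elements up to `Y` such that the laws hold for the reductions of the sequences modulo all primes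
outside of `E`.

(3) This is so for the powers `a_1 ^ n, …, a_r ^ n` of integers `|a_i| ≥ 2` with different absolute values (for `r = 2`,
`m = 1` the curves can be `y² = x³ + (a_1 ^ n mod q) x + (a_2 ^ n mod q)`), and (4) for the consecutive Fibonacci numbers
`F_n, F_{n + 1}`. -/
theorem result (ε : ℝ) (hε : 0 < ε) (hε1 : ε ≤ 1) :
    (∀ k r m s : ℕ, 1 ≤ s → ∀ δ : ℝ, 0 < δ → Laws r m s ε δ (fun q v => ∃ (_ : Fact q.Prime) (f : (ZMod q)[X]),
      Generic ε q f ∧ f.natDegree ≤ k ∧ (∀ j, Recurrence f (fun n => v n j)) ∧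
      LinearIndependent (ZMod q) (fun j n => v n j))) ∧
    (∀ (f : ℤ[X]) (r : ℕ) (u : Fin r → ℕ → ℤ), Nondegenerate f → (∀ j, Recurrence f (u j)) → LinearIndependent ℤ u →
      ∃ (E : Set ℕ) (b : ℝ), Sparse ε b E ∧ ∀ m s : ℕ, 1 ≤ s → ∀ δ : ℝ, 0 < δ →
        Laws r m s ε δ (fun q v => q.Prime ∧ q ∉ E ∧ v = fun n j => ((u j n : ℤ) : ZMod q))) ∧
    (∀ (r : ℕ) (a : Fin r → ℤ), 1 ≤ r → (∀ i, 2 ≤ |a i|) → (∀ i j, i ≠ j → |a i| ≠ |a j|) →
      ∃ (E : Set ℕ) (b : ℝ), Sparse ε b E ∧ ∀ m s : ℕ, 1 ≤ s → ∀ δ : ℝ, 0 < δ →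
        Laws r m s ε δ (fun q v => q.Prime ∧ q ∉ E ∧ v = fun n j => (a j : ZMod q) ^ n)) ∧
    (∃ (E : Set ℕ) (b : ℝ), Sparse ε b E ∧ ∀ m s : ℕ, 1 ≤ s → ∀ δ : ℝ, 0 < δ →
        Laws 2 m s ε δ (fun q v => q.Prime ∧ q ∉ E ∧ v = fun n (j : Fin 2) => (Nat.fib (n + j) : ZMod q))) := by
  have key : ∀ (f : ℤ[X]) (r : ℕ) (u : Fin r → ℕ → ℤ), Pool.Agent.J4.H80.BGR.Nondeg f →
      (∀ j, Pool.Agent.J4.H80.BGR.Rec f (u j)) → LinearIndependent ℤ u →
      ∃ (E : Set ℕ) (b : ℝ), Sparse ε b E ∧ ∀ m s : ℕ, 1 ≤ s → ∀ δ : ℝ, 0 < δ →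
        Laws r m s ε δ (fun q v => q.Prime ∧ q ∉ E ∧ v = fun n j => ((u j n : ℤ) : ZMod q)) := by
    intro f r u hf hu hi
    obtain ⟨E, b, hE, δ', hδ', H⟩ := Pool.Agent.J4.H80.LT.flat_int_set f hf u hu hi ε hε
    refine ⟨E, b, hE, fun m s hs δ hδ => laws_of r m s hs ε hε hε1 δ hδ δ' hδ' 0 _ ?_⟩
    rintro q v ⟨hq, hqE, rfl⟩
    exact ⟨⟨hq.ne_zero⟩, fun _ => H q ⟨hq⟩ hqE⟩
  refine ⟨?_, ?_, ?_, ?_⟩
  · intro k r m s hs δ hδ
    obtain ⟨δ', hδ', P₀, H⟩ := Pool.Agent.J4.H80.LT.flat_rec ε hε k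
    refine laws_of r m s hs ε hε hε1 δ hδ δ' hδ' P₀ _ ?_
    rintro q v ⟨hq, f, hf, hk, hu, hi⟩
    exact ⟨⟨hq.out.ne_zero⟩, fun hP => H q hP f ⟨hf.monic, hf.sqf, hf.coeff_ne, hf.coprime, hf.gen⟩ hk r
      (fun j n => v n j) hu hi⟩
  · intro f r u hf hu hi
    exact key f r u ⟨hf.monic, hf.pos, hf.sep, hf.ne_zero, hf.pow_ne_one, hf.pow_ne⟩ hu hi
  · intro r a hr ha hab
    obtain ⟨E, b, hE, H⟩ := key (Pool.Agent.J4.H80.BGR.pol a) r (fun i n => a i ^ n)
      (Pool.Agent.J4.H80.BGR.pol_nondeg a hr ha hab) (Pool.Agent.J4.H80.BGR.pol_rec a)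
      (Pool.Agent.J4.H80.BGR.pol_indep a hab)
    refine ⟨E, b, hE, fun m s hs δ hδ => ?_⟩
    have h1 := H m s hs δ hδ
    simp only [Int.cast_pow] at h1
    exact h1
  · obtain ⟨E, b, hE, H⟩ := key Pool.Agent.J4.H80.BGR.fibPol 2 Pool.Agent.J4.H80.BGR.fibs
      Pool.Agent.J4.H80.BGR.fibPol_nondeg Pool.Agent.J4.H80.BGR.fibs_rec Pool.Agent.J4.H80.BGR.fibs_indep
    refine ⟨E, b, hE, fun m s hs δ hδ => ?_⟩
    have h1 := H m s hs δ hδ
    simp only [Pool.Agent.J4.H80.BGR.fibs, Int.cast_natCast] at h1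
    exact h1

end Pool.Agent.Results.MP_f1937f_nt.LinearRecurrencesModuloPrimes
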