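import Pool.Agent.J4.H35.PPc
import Pool.Agent.R459.Eq18

/-!
# Lang–Trotter counts in all families with two parameters, for almost all parameters of the form `⌊α n ^ c⌋`,
uniformly in `α`, for all real exponents `c` which are not natural numbers

From Mathlib: `MvPolynomial (Fin 2) ℤ`: polynomials in two variables with integer coefficients; `Nat.Prime`: primes.

Method: the characteristic function of the integer part of `α n ^ c`, `N ≤ n < 2 N`, is small at all frequencies which are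
not close to integers, uniformly in `α`, down to the values of `α` for which the values `α n ^ c` are as small as a fixed
power of `N` (van der Corput differencing and the inequality of Kusmin and Landau, `Pool.Agent.J4.H35.PPa`, `PPb`). The
passage from the characteristic function to sums over primes of functions of residues, for almost all values, is from the
starting files (`Pool.Agent.R459.Eq`).
-/

set_option autoImplicit false

namespace Pool.Agent.Results.MP_f1937f_nt.MovingPowers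

open Finset Filter Pool.Agent.R459.Eq
open Pool.Agent.W263.BSD (GoodPrime pointCount)

open Classical in
/-- Almost all the integers `t = c₀ + κ ⌊α n ^ c⌋`, `N ≤ n < 2 N`, up to a proportion of at most `τ` of the `n`, have the
property `P`. -/
def Almost (c α : ℝ) (N : ℕ) (κ c₀ : ℤ) (τ : ℝ) (P : ℤ → Prop) : Prop :=
  (((Ico N (2 * N)).filter (fun n : ℕ => ¬ P (c₀ + κ * ⌊α * (n : ℝ) ^ c⌋))).card : ℝ) ≤ τ * N

/-- `p` is a prime of good reduction of `y² = x³ + a x + b`, and the trace of Frobenius `a_p = p - N_p` is `r`. -/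
def Trace (r : ℤ) (p : ℕ) (a b : ℤ) : Prop := GoodPrime a b p ∧ (p : ℤ) - pointCount a b p = r

/-- The value at `(s, t)`. -/
noncomputable def ev (A : MvPolynomial (Fin 2) ℤ) (s t : ℤ) : ℤ := MvPolynomial.eval ![s, t] A

open Classical in
/-- The number `P_{E, r}(x)` of the primes `p ≤ x` of good reduction of the curve `E : y² = x³ + A(s, t) x + B(s, t)` with
`a_p(E) = r`. -/
noncomputable def langTrotter (A B : MvPolynomial (Fin 2) ℤ) (s t r : ℤ) (x : ℕ) : ℕ :=
  ((range (x + 1)).filter (fun p => Trace r p (ev A s t) (ev B s t))).card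

open Classical in
/-- The sum over the primes `p ≤ x` of the proportion of the residues `τ` modulo `p` for which `p` is a prime of good reduction
of `y² = x³ + A(s, τ) x + B(s, τ)` with trace `r`. -/
noncomputable def model (A B : MvPolynomial (Fin 2) ℤ) (s r : ℤ) (x : ℕ) : ℝ :=
  ∑ p ∈ (range (x + 1)).filter Nat.Prime,
    (((range p).filter (fun τ : ℕ => Trace r p (ev A s τ) (ev B s τ))).card : ℝ) / p

open Classical in
/-- The sum over the primes `p ≤ x` of the proportion of the pairs `(σ, τ)` of residues modulo `p` for which `p` is a prime of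
good reduction of `y² = x³ + A(σ, τ) x + B(σ, τ)` with trace `r`. -/
noncomputable def modelPairs (A B : MvPolynomial (Fin 2) ℤ) (r : ℤ) (x : ℕ) : ℝ :=
  ∑ p ∈ (range (x + 1)).filter Nat.Prime,
    (((range p ×ˢ range p).filter (fun z : ℕ × ℕ => Trace r p (ev A z.1 z.2) (ev B z.1 z.2))).card : ℝ) / (p : ℝ) ^ 2

lemma almost_iff {c α : ℝ} {N : ℕ} {κ c₀ : ℤ} {τ : ℝ} {P : ℤ → Prop} :
    Almost c α N κ c₀ τ P ↔ Pool.Agent.J4.H35.PP.AlmostM c α N κ c₀ τ P := by
  unfold Almost Pool.Agent.J4.H35.PP.AlmostM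
  rfl

lemma almost_and {c α : ℝ} {N : ℕ} {κ c₀ : ℤ} {τ τ' : ℝ} {P Q : ℤ → Prop} (h : Almost c α N κ c₀ τ P)
    (h' : Almost c α N κ c₀ τ' Q) : Almost c α N κ c₀ (τ + τ') (fun n => P n ∧ Q n) := by
  classical
  unfold Almost at h h' ⊢
  have h1 : (Ico N (2 * N)).filter (fun n : ℕ => ¬ (P (c₀ + κ * ⌊α * (n : ℝ) ^ c⌋) ∧ Q (c₀ + κ * ⌊α * (n : ℝ) ^ c⌋))) ⊆
      (Ico N (2 * N)).filter (fun n : ℕ => ¬ P (c₀ + κ * ⌊α * (n : ℝ) ^ c⌋)) ∪
      (Ico N (2 * N)).filter (fun n : ℕ => ¬ Q (c₀ + κ * ⌊α * (n : ℝ) ^ c⌋)) := by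
    intro n hn
    rw [mem_union, mem_filter, mem_filter]
    rw [mem_filter] at hn
    by_cases hP : P (c₀ + κ * ⌊α * (n : ℝ) ^ c⌋)
    · right
      exact ⟨hn.1, fun hQ => hn.2 ⟨hP, hQ⟩⟩
    · left
      exact ⟨hn.1, hP⟩
  have h2 := (card_le_card h1).trans (card_union_le _ _)
  have h3 : (((Ico N (2 * N)).filter (fun n : ℕ => ¬ (P (c₀ + κ * ⌊α * (n : ℝ) ^ c⌋) ∧ Q (c₀ + κ * ⌊α * (n : ℝ) ^ c⌋)))).card : ℝ) ≤
      ((Ico N (2 * N)).filter (fun n : ℕ => ¬ P (c₀ + κ * ⌊α * (n : ℝ) ^ c⌋))).card +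
      ((Ico N (2 * N)).filter (fun n : ℕ => ¬ Q (c₀ + κ * ⌊α * (n : ℝ) ^ c⌋))).card := by
    exact_mod_cast h2
  refine le_trans (le_of_eq ?_) (h3.trans ?_)
  · congr!
  · rw [add_mul]
    exact add_le_add h h'

lemma pri_eq (x : ℕ) [DecidablePred Nat.Prime] : (range (x + 1)).filter Nat.Prime = pri x := by
  unfold pri
  congr!

/-- the property of the parameters -/
def TrP (A B : MvPolynomial (Fin 2) ℤ) (r : ℤ) (p : ℕ) (s t : ℤ) : Prop := Trace r p (ev A s t) (ev B s t)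

lemma langTrotter_eq (A B : MvPolynomial (Fin 2) ℤ) (s t r : ℤ) (x : ℕ) :
    langTrotter A B s t r x = cntR (TrP A B r) s t x := by
  classical
  unfold langTrotter cntR
  congr 1
  ext p
  simp only [mem_filter, mem_range, mem_pri]
  constructor
  · rintro ⟨h1, h2⟩
    exact ⟨⟨by omega, h2.1.1⟩, h2⟩
  · rintro ⟨h1, h2⟩
    exact ⟨by omega, h2⟩

lemma model_eq (A B : MvPolynomial (Fin 2) ℤ) (s r : ℤ) (x : ℕ) :
    model A B s r x = ∑ p ∈ pri x, Pool.Agent.R459.Eq.dens (TrP A B r) s p := by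
  classical
  unfold model Pool.Agent.R459.Eq.dens
  rw [pri_eq]
  rfl

lemma modelPairs_eq (A B : MvPolynomial (Fin 2) ℤ) (r : ℤ) (x : ℕ) :
    modelPairs A B r x = ∑ p ∈ pri x, dens2 (TrP A B r) p := by
  classical
  unfold modelPairs dens2
  rw [pri_eq]
  rfl

lemma ev_congr {p : ℤ} {v w : Fin 2 → ℤ} (h : ∀ i, p ∣ v i - w i) (A : MvPolynomial (Fin 2) ℤ) :
    p ∣ MvPolynomial.eval v A - MvPolynomial.eval w A := by
  induction A using MvPolynomial.induction_on with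
  | C a => simp
  | add f g hf hg =>
    have e : MvPolynomial.eval v (f + g) - MvPolynomial.eval w (f + g) =
        (MvPolynomial.eval v f - MvPolynomial.eval w f) + (MvPolynomial.eval v g - MvPolynomial.eval w g) := by
      rw [map_add, map_add]
      ring
    rw [e]
    exact dvd_add hf hg
  | mul_X f i hf =>
    have e : MvPolynomial.eval v (f * MvPolynomial.X i) - MvPolynomial.eval w (f * MvPolynomial.X i) =
        (MvPolynomial.eval v f - MvPolynomial.eval w f) * v i + MvPolynomial.eval w f * (v i - w i) := by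
      rw [map_mul, map_mul, MvPolynomial.eval_X, MvPolynomial.eval_X]
      ring
    rw [e]
    exact dvd_add (dvd_mul_of_dvd_left hf (v i)) (dvd_mul_of_dvd_right (h i) (MvPolynomial.eval w f))

lemma trace_per (r : ℤ) (p : ℕ) (a a' n n' : ℤ) (h : (p : ℤ) ∣ a - a') (h' : (p : ℤ) ∣ n - n') :
    Trace r p a n ↔ Trace r p a' n' := by
  have e1 : ((a : ℤ) : ZMod p) = ((a' : ℤ) : ZMod p) := by
    rw [← sub_eq_zero, ← Int.cast_sub, ZMod.intCast_zmod_eq_zero_iff_dvd]
    exact h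
  have e2 : ((n : ℤ) : ZMod p) = ((n' : ℤ) : ZMod p) := by
    rw [← sub_eq_zero, ← Int.cast_sub, ZMod.intCast_zmod_eq_zero_iff_dvd]
    exact h'
  have h1 : GoodPrime a n p ↔ GoodPrime a' n' p := by
    unfold GoodPrime
    rw [← ZMod.intCast_zmod_eq_zero_iff_dvd, ← ZMod.intCast_zmod_eq_zero_iff_dvd]
    push_cast
    rw [e1, e2]
  have h2 : pointCount a n p = pointCount a' n' p := by
    unfold pointCount
    rw [e1, e2]
  unfold Trace
  rw [h1, h2]

lemma trp_per (A B : MvPolynomial (Fin 2) ℤ) (r : ℤ) (p : ℕ) (s s' t t' : ℤ) (h : (p : ℤ) ∣ s - s') (h' : (p : ℤ) ∣ t - t') :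
    TrP A B r p s t ↔ TrP A B r p s' t' := by
  have h1 : ∀ i, (p : ℤ) ∣ (![s, t] : Fin 2 → ℤ) i - (![s', t'] : Fin 2 → ℤ) i := by
    intro i
    fin_cases i
    · exact h
    · exact h'
  exact trace_per r p _ _ _ _ (ev_congr h1 A) (ev_congr h1 B)

/-- **Lang–Trotter counts for almost all members, with parameters `⌊α n ^ c⌋`.** Let `c` be a real number which is not one of
`0, 1, 2, ...` (it may be negative), `δ₀ > 0`, `K₀` real, and `0 < δ ≤ 1 / 2`. There are `W` and `N₀` such that for all integers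
`κ ≠ 0` and all sufficiently large `X` the following holds for all `N ≥ N₀`, for ALL real `α` with
`N ^ δ₀ ≤ α N ^ c ≤ N ^ K₀`, all integers `c₀` and ALL polynomials `A(s, t)`, `B(s, t)` with integer coefficients.

(1) For EVERY integer `s`, almost all the integers `t = c₀ + κ ⌊α n ^ c⌋`, `N ≤ n < 2 N`, up to a proportion of at most
`4 X ^ (- δ / 2)`, have for ALL `x ≥ X` with `x ^ W ≤ α N ^ c` and ALL integers `|r| ≤ x ^ (δ / 2)`: with `S` the sum over
`p ≤ x` of the proportion of the residues `τ` modulo `p` such that `y² = x³ + A(s, τ) x + B(s, τ)` has the trace `r`, and `S'`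
the same sum over `p ≤ 2 x`, the number of the primes `p ≤ x` of good reduction of `y² = x³ + A(s, t) x + B(s, t)` with the
trace `r` differs from `S` by at most `(max 1 S') ^ (1 / 2) x ^ δ`.

(2) Almost all the integers `s = c₀ + κ ⌊α n ^ c⌋`, `N ≤ n < 2 N`, up to a proportion of at most `4 X ^ (- δ / 2)`, have for
ALL `x ≥ X` with `x ^ W ≤ α N ^ c` and ALL integers `|r| ≤ x ^ (δ / 2)`: the sum `S` differs from the sum over `p ≤ x` of the
proportion of the PAIRS of parameters modulo `p` which have the trace `r` by at most `x ^ δ` times the square root of the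
maximum of `1` and the sum of the proportions of the pairs over `p ≤ 2 x`.

For `c = -1` and `α = y`, a parameter between `N ^ (1 + δ₀)` and `N ^ (1 + K₀)`, the integers are the quotients
`⌊y / n⌋`. -/
theorem result (c : ℝ) (hc : ∀ m : ℕ, c ≠ m) (δ₀ K₀ δ : ℝ) (hδ₀ : 0 < δ₀) (hδ : 0 < δ) (hδ1 : δ ≤ 1 / 2) :
    ∃ W N₀ : ℕ, 1 ≤ W ∧ ∀ κ : ℤ, κ ≠ 0 → ∃ X₀ : ℕ, ∀ X : ℕ, X₀ ≤ X → ∀ N : ℕ, N₀ ≤ N →
      ∀ α : ℝ, 0 < α → (N : ℝ) ^ δ₀ ≤ α * (N : ℝ) ^ c → α * (N : ℝ) ^ c ≤ (N : ℝ) ^ K₀ →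
      ∀ (c₀ : ℤ) (A B : MvPolynomial (Fin 2) ℤ),
      (∀ s : ℤ, Almost c α N κ c₀ (4 * (X : ℝ) ^ (-(δ / 2))) (fun t =>
        ∀ x : ℕ, X ≤ x → (x : ℝ) ^ W ≤ α * (N : ℝ) ^ c → ∀ r : ℤ, (|r| : ℝ) ≤ (x : ℝ) ^ (δ / 2) →
          |(langTrotter A B s t r x : ℝ) - model A B s r x| ≤ √(max 1 (model A B s r (2 * x))) * (x : ℝ) ^ δ)) ∧
      Almost c α N κ c₀ (4 * (X : ℝ) ^ (-(δ / 2))) (fun s =>
        ∀ x : ℕ, X ≤ x → (x : ℝ) ^ W ≤ α * (N : ℝ) ^ c → ∀ r : ℤ, (|r| : ℝ) ≤ (x : ℝ) ^ (δ / 2) →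
          |model A B s r x - modelPairs A B r x| ≤ √(max 1 (modelPairs A B r (2 * x))) * (x : ℝ) ^ δ) := by
  obtain ⟨W, N₀, hW, H⟩ := Pool.Agent.J4.H35.PP.pw_two_count hc δ₀ K₀ hδ₀ δ hδ hδ1
  refine ⟨W, N₀, hW, fun κ hκ => ?_⟩
  obtain ⟨X₀, J⟩ := H κ hκ
  refine ⟨X₀, fun X hX N hN α hα hα1 hα2 c₀ A B => ?_⟩
  have hfew : ∀ σ : ℤ, σ = 1 ∨ σ = -1 → ∀ p : ℕ, p.Prime → ∀ (a n : ℤ) (Q : Finset ℕ), (∀ j ∈ Q, TrP A B (σ * j) p a n) →
      Q.card ≤ Nat.log 2 p + 3 := by
    intro σ hσ p _ a n Q hQ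
    have h1 : Q.card ≤ 1 := by
      rw [card_le_one]
      intro j hj j' hj'
      have h2 := (hQ j hj).2
      have h3 := (hQ j' hj').2
      rw [h2] at h3
      have h4 : (j : ℤ) = j' := by
        rcases hσ with h | h <;> rw [h] at h3 <;> linarith
      exact_mod_cast h4
    omega
  have hA : Pool.Agent.J4.H35.PP.Adm c δ₀ K₀ N α := ⟨hα, hα1, hα2⟩
  obtain ⟨h1, h2⟩ := J X hX N hN α hA c₀ (fun j : ℕ => TrP A B (1 * j)) (fun j p _ a a' n n' => trp_per A B _ p a a' n n')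
    (hfew 1 (Or.inl rfl))
  obtain ⟨h3, h4⟩ := J X hX N hN α hA c₀ (fun j : ℕ => TrP A B (-1 * j)) (fun j p _ a a' n n' => trp_per A B _ p a a' n n')
    (hfew (-1) (Or.inr rfl))
  have hr : ∀ r : ℤ, ∃ j : ℕ, (r = 1 * j ∨ r = -1 * j) ∧ (j : ℝ) = |(r : ℝ)| := by
    intro r
    refine ⟨r.natAbs, ?_, ?_⟩
    · rcases Int.natAbs_eq r with h | h
      · left
        omega
      · right
        omega
    · rw [← Int.cast_abs, Int.abs_eq_natAbs]
      rfl
  have h8 : (4 : ℝ) * (X : ℝ) ^ (-(δ / 2)) = 2 * (X : ℝ) ^ (-(δ / 2)) + 2 * (X : ℝ) ^ (-(δ / 2)) := by ring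
  rw [h8]
  constructor
  · intro s
    have h9 := almost_and (almost_iff.2 (h1 s)) (almost_iff.2 (h3 s))
    rw [almost_iff] at h9 ⊢
    refine Pool.Agent.J4.H35.PP.AlmostM.mono h9 ?_
    rintro n ⟨hn, hn'⟩ x hXx hxW r hrx
    rw [langTrotter_eq, model_eq, model_eq]
    obtain ⟨j, hj | hj, hj2⟩ := hr r
    · rw [hj]
      exact (hn x hXx hxW).2 j (by rw [hj2]; exact hrx)
    · rw [hj]
      exact (hn' x hXx hxW).2 j (by rw [hj2]; exact hrx)
  · have h9 := almost_and (almost_iff.2 h2) (almost_iff.2 h4)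
    rw [almost_iff] at h9 ⊢
    refine Pool.Agent.J4.H35.PP.AlmostM.mono h9 ?_
    rintro a ⟨hn, hn'⟩ x hXx hxW r hrx
    rw [model_eq, modelPairs_eq, modelPairs_eq]
    obtain ⟨j, hj | hj, hj2⟩ := hr r
    · rw [hj]
      exact (hn x hXx hxW).2 j (by rw [hj2]; exact hrx)
    · rw [hj]
      exact (hn' x hXx hxW).2 j (by rw [hj2]; exact hrx)

end Pool.Agent.Results.MP_f1937f_nt.MovingPowers
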