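import Pool.Agent.J4.H37.LT.T9
import Pool.Agent.W263.BSD.Defs

/-!
# Lang–Trotter counts for almost all members of the families with two parameters, with parameters in automatic sets of Ostrowski's numeration systems

Let `α 1, α 2, … ≥ 1` be the partial quotients of an irrational number and let `q i = den α i` be the denominators of
its convergents: `q 0 = 1`, `q 1 = α 1`, `q (i + 2) = α (i + 2) * q (i + 1) + q i`. Every integer `n ≥ 0` has exactly one
representation `n = ∑ w_i q_i` with `w_0 < α_1`, `w_{i + 1} ≤ α_{i + 2}` and `w_i = 0` whenever `w_{i + 1} = α_{i + 2}`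
(Ostrowski). For `α = (2, 1, 1, …)` this is Zeckendorf's representation by the Fibonacci numbers `1, 2, 3, 5, …`.

The parameters of the curves `y² = x³ + A(s, t) x + B(s, t)`, where `A` and `B` are arbitrary polynomials, run through
* the set of the integers whose representation of Ostrowski is accepted by a finite automaton, for an eventually periodic
  sequence `α` (a quadratic irrationality), if this set has more than polylogarithmically many elements; such sets
  may have as few as `N ^ c` elements below `N`, with arbitrarily small `c > 0`;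
* uniformly for all the sequences of partial quotients `α i ≤ Q`: the set of the values `∑ w_i q_i` of the words `w` over
  `{0, …, H - 1}` which are accepted by an automaton, if different words have different values.

Definitions used: `Pool.Agent.R461.CF.den` as above. In `Pool.Agent.W263.BSD` (file `Pool/Agent/W263/BSD/Defs.lean`):
`pointCount a n p` is the number of the solutions of `y² = x³ + a x + n` modulo `p`, `GoodPrime a n p`: `p` is a prime which
does not divide `2 (4 a³ + 27 n²)`. From Mathlib: `MvPolynomial (Fin 2) ℤ`: polynomials in two variables; `DFA ℕ σ`: the deterministic automata with the set of states `σ` and the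
alphabet `ℕ`; `M.accepts`: the set of the words accepted by `M`. The words are read from the least significant letter on.
-/

set_option autoImplicit false

namespace Pool.Agent.Results.MP_f1937f_nt.OstrowskiFamilies

open Finset Filter Pool.Agent.R459.Eq
open Pool.Agent.W263.BSD (GoodPrime pointCount)
open Pool.Agent.R461.CF (den)
open Pool.Agent.J4.H37.LT (cnt AlmostN Val Fine)

/-- `p` is a prime of good reduction of `y² = x³ + a x + b`, and the trace of Frobenius `a_p = p - N_p` is `r`. -/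
def Trace (r : ℤ) (p : ℕ) (a b : ℤ) : Prop := GoodPrime a b p ∧ (p : ℤ) - pointCount a b p = r

/-- The value at `(s, t)`. -/
noncomputable def ev (A : MvPolynomial (Fin 2) ℤ) (s t : ℤ) : ℤ := MvPolynomial.eval ![s, t] A

open Classical in
/-- The number `P_{E, r}(x)` of the primes `p ≤ x` of good reduction of the curve `E : y² = x³ + A(s, t) x + B(s, t)` with
`a_p(E) = r`. -/
noncomputable def langTrotter (A B : MvPolynomial (Fin 2) ℤ) (s t r : ℤ) (x : ℕ) : ℕ :=
  ((range (x + 1)).filter (fun p => Trace r p (ev A s t) (ev B s t))).card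

open Classical in
/-- The sum over the primes `p ≤ x` of the proportion of the residues `τ` modulo `p` for which `p` is a prime of good reduction
of `y² = x³ + A(s, τ) x + B(s, τ)` with trace `r`. -/
noncomputable def model (A B : MvPolynomial (Fin 2) ℤ) (s r : ℤ) (x : ℕ) : ℝ :=
  ∑ p ∈ (range (x + 1)).filter Nat.Prime,
    (((range p).filter (fun τ : ℕ => Trace r p (ev A s τ) (ev B s τ))).card : ℝ) / p

open Classical in
/-- The sum over the primes `p ≤ x` of the proportion of the pairs `(σ, τ)` of residues modulo `p` for which `p` is a prime of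
good reduction of `y² = x³ + A(σ, τ) x + B(σ, τ)` with trace `r`. -/
noncomputable def modelPairs (A B : MvPolynomial (Fin 2) ℤ) (r : ℤ) (x : ℕ) : ℝ :=
  ∑ p ∈ (range (x + 1)).filter Nat.Prime,
    (((range p ×ˢ range p).filter (fun z : ℕ × ℕ => Trace r p (ev A z.1 z.2) (ev B z.1 z.2))).card : ℝ) / (p : ℝ) ^ 2

lemma pri_eq (x : ℕ) [DecidablePred Nat.Prime] : (range (x + 1)).filter Nat.Prime = pri x := by
  unfold pri
  congr!

/-- the property of the parameters -/
def TrP (A B : MvPolynomial (Fin 2) ℤ) (r : ℤ) (p : ℕ) (s t : ℤ) : Prop := Trace r p (ev A s t) (ev B s t)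

lemma langTrotter_eq (A B : MvPolynomial (Fin 2) ℤ) (s t r : ℤ) (x : ℕ) :
    langTrotter A B s t r x = cntR (TrP A B r) s t x := by
  classical
  unfold langTrotter cntR
  congr 1
  ext p
  simp only [mem_filter, mem_range, mem_pri]
  constructor
  · rintro ⟨h1, h2⟩
    exact ⟨⟨by omega, h2.1.1⟩, h2⟩
  · rintro ⟨h1, h2⟩
    exact ⟨by omega, h2⟩

lemma model_eq (A B : MvPolynomial (Fin 2) ℤ) (s r : ℤ) (x : ℕ) :
    model A B s r x = ∑ p ∈ pri x, Pool.Agent.R459.Eq.dens (TrP A B r) s p := by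
  classical
  unfold model Pool.Agent.R459.Eq.dens
  rw [pri_eq]
  rfl

lemma modelPairs_eq (A B : MvPolynomial (Fin 2) ℤ) (r : ℤ) (x : ℕ) :
    modelPairs A B r x = ∑ p ∈ pri x, dens2 (TrP A B r) p := by
  classical
  unfold modelPairs dens2
  rw [pri_eq]
  rfl

lemma ev_congr {p : ℤ} {v w : Fin 2 → ℤ} (h : ∀ i, p ∣ v i - w i) (A : MvPolynomial (Fin 2) ℤ) :
    p ∣ MvPolynomial.eval v A - MvPolynomial.eval w A := by
  induction A using MvPolynomial.induction_on with
  | C a => simp
  | add f g hf hg =>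
    have e : MvPolynomial.eval v (f + g) - MvPolynomial.eval w (f + g) =
        (MvPolynomial.eval v f - MvPolynomial.eval w f) + (MvPolynomial.eval v g - MvPolynomial.eval w g) := by
      rw [map_add, map_add]
      ring
    rw [e]
    exact dvd_add hf hg
  | mul_X f i hf =>
    have e : MvPolynomial.eval v (f * MvPolynomial.X i) - MvPolynomial.eval w (f * MvPolynomial.X i) =
        (MvPolynomial.eval v f - MvPolynomial.eval w f) * v i + MvPolynomial.eval w f * (v i - w i) := by
      rw [map_mul, map_mul, MvPolynomial.eval_X, MvPolynomial.eval_X]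
      ring
    rw [e]
    exact dvd_add (dvd_mul_of_dvd_left hf (v i)) (dvd_mul_of_dvd_right (h i) (MvPolynomial.eval w f))

lemma trace_per (r : ℤ) (p : ℕ) (a a' n n' : ℤ) (h : (p : ℤ) ∣ a - a') (h' : (p : ℤ) ∣ n - n') :
    Trace r p a n ↔ Trace r p a' n' := by
  have e1 : ((a : ℤ) : ZMod p) = ((a' : ℤ) : ZMod p) := by
    rw [← sub_eq_zero, ← Int.cast_sub, ZMod.intCast_zmod_eq_zero_iff_dvd]
    exact h
  have e2 : ((n : ℤ) : ZMod p) = ((n' : ℤ) : ZMod p) := by
    rw [← sub_eq_zero, ← Int.cast_sub, ZMod.intCast_zmod_eq_zero_iff_dvd]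
    exact h'
  have h1 : GoodPrime a n p ↔ GoodPrime a' n' p := by
    unfold GoodPrime
    rw [← ZMod.intCast_zmod_eq_zero_iff_dvd, ← ZMod.intCast_zmod_eq_zero_iff_dvd]
    push_cast
    rw [e1, e2]
  have h2 : pointCount a n p = pointCount a' n' p := by
    unfold pointCount
    rw [e1, e2]
  unfold Trace
  rw [h1, h2]

lemma trp_per (A B : MvPolynomial (Fin 2) ℤ) (r : ℤ) (p : ℕ) (s s' t t' : ℤ) (h : (p : ℤ) ∣ s - s') (h' : (p : ℤ) ∣ t - t') :
    TrP A B r p s t ↔ TrP A B r p s' t' := by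
  have h1 : ∀ i, (p : ℤ) ∣ (![s, t] : Fin 2 → ℤ) i - (![s', t'] : Fin 2 → ℤ) i := by
    intro i
    fin_cases i
    · exact h
    · exact h'
  exact trace_per r p _ _ _ _ (ev_congr h1 A) (ev_congr h1 B)

/-- The value `∑ w_i q_i` of the word `w`, where the `q_i` are the denominators of the convergents. -/
def value (a : ℕ → ℕ) (w : List ℕ) : ℕ := ∑ i ∈ range w.length, w.getD i 0 * den a i

/-- The representations of Ostrowski: `w_0 < a_1`, `w_{i + 1} ≤ a_{i + 2}`, `w_i = 0` if `w_{i + 1} = a_{i + 2}`, and the last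
letter is not zero. -/
def Ostrowski (a : ℕ → ℕ) : Set (List ℕ) :=
  {w | w.getD 0 0 < a 1 ∧ (∀ i, w.getD (i + 1) 0 ≤ a (i + 2) ∧ (w.getD (i + 1) 0 = a (i + 2) → w.getD i 0 = 0)) ∧
    ∀ h : w ≠ [], w.getLast h ≠ 0}

/-- The words over `{0, …, H - 1}` whose last letter is not zero. -/
def Words (H : ℕ) : Set (List ℕ) := {w | (∀ x ∈ w, x < H) ∧ ∀ h : w ≠ [], w.getLast h ≠ 0}

open Classical in
/-- The number of the integers `0 ≤ n < N` in `S` with the property `E`. -/
noncomputable def num (S : Set ℕ) (N : ℕ) (E : ℕ → Prop) : ℝ := (((range N).filter fun n => n ∈ S ∧ E n).card : ℝ)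

lemma ost_mem {σ : Type} (a : ℕ → ℕ) (M : DFA ℕ σ) (n : ℕ) :
    n ∈ value a '' (Ostrowski a ∩ M.accepts) ↔ Pool.Agent.J4.H37.OA.Ost a M n := by
  constructor
  · rintro ⟨w, ⟨⟨h1, h2, h3⟩, h4⟩, h5⟩
    exact ⟨w, h4, ⟨h1, h2⟩, h3, h5⟩
  · rintro ⟨w, h4, ⟨h1, h2⟩, h3, h5⟩
    exact ⟨w, ⟨⟨h1, h2, h3⟩, h4⟩, h5⟩

lemma digits_mem (H : ℕ) (hH : 2 ≤ H) (v : ℕ) : Nat.digits H v ∈ Words H := by
  refine ⟨fun x hx => Nat.digits_lt_base (by omega) hx, fun h => ?_⟩
  exact Nat.getLast_digit_ne_zero H (Nat.digits_ne_nil_iff_ne_zero.1 h)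

lemma digits_of (H : ℕ) (hH : 2 ≤ H) (w : List ℕ) (hw : w ∈ Words H) : Nat.digits H (Nat.ofDigits H w) = w :=
  Nat.digits_ofDigits H (by omega) w hw.1 hw.2

lemma word_mem {σ : Type} (H : ℕ) (hH : 2 ≤ H) (a : ℕ → ℕ) (M : DFA ℕ σ) (n : ℕ) :
    n ∈ value a '' (Words H ∩ M.accepts) ↔ ∃ v, Nat.digits H v ∈ M.accepts ∧ value a (Nat.digits H v) = n := by
  constructor
  · rintro ⟨w, ⟨h1, h2⟩, h3⟩
    have h4 := digits_of H hH w h1
    exact ⟨Nat.ofDigits H w, by rw [h4]; exact h2, by rw [h4]; exact h3⟩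
  · rintro ⟨v, h1, h2⟩
    exact ⟨_, ⟨digits_mem H hH v, h1⟩, h2⟩

open Classical in
lemma count_words {σ : Type} (H : ℕ) (hH : 2 ≤ H) (M : DFA ℕ σ) (n : ℕ) :
    {w : List ℕ | w ∈ Words H ∩ M.accepts ∧ w.length ≤ n}.ncard = ((range (H ^ n)).filter fun v => Nat.digits H v ∈ M.accepts).card := by
  have h1 : {w : List ℕ | w ∈ Words H ∩ M.accepts ∧ w.length ≤ n} =
      (fun v => Nat.digits H v) '' (((range (H ^ n)).filter fun v => Nat.digits H v ∈ M.accepts : Finset ℕ) : Set ℕ) := by
    ext w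
    constructor
    · rintro ⟨⟨h1, h2⟩, h3⟩
      have h4 := digits_of H hH w h1
      refine ⟨Nat.ofDigits H w, ?_, h4⟩
      rw [mem_coe, mem_filter, mem_range, h4]
      refine ⟨?_, h2⟩
      rw [← Nat.digits_length_le_iff (by omega : 1 < H), h4]
      exact h3
    · rintro ⟨v, h1, rfl⟩
      rw [mem_coe, mem_filter, mem_range] at h1
      refine ⟨⟨digits_mem H hH v, h1.2⟩, ?_⟩
      rw [Nat.digits_length_le_iff (by omega : 1 < H)]
      exact h1.1
  rw [h1, Set.ncard_image_of_injective _ (Nat.digits.injective H), Set.ncard_coe_finset]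

/-- The conclusion for the set `S`: for ALL polynomials `A(s, t)` and `B(s, t)`, Lang–Trotter counts for almost all the curves
`y² = x³ + A(s, t) x + B(s, t)` whose parameter `t` (for EVERY `s`) is of the form `c + κ v` with `v ∈ S`, `v < N`, and the
averages over `t` for almost all `s = c + κ v`, for all `x` with `X ≤ x`, `x ^ W ≤ N`, and for all the traces
`|r| ≤ x ^ (δ / 2)`. The number of the exceptional `v` is at most `τ` times the number of all the `v`. -/
def LangTrotterFor (S : Set ℕ) (κ c : ℤ) (N X W : ℕ) (δ τ : ℝ) : Prop :=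
  ∀ A B : MvPolynomial (Fin 2) ℤ,
  (∀ s : ℤ, num S N (fun v => ¬ ∀ x : ℕ, X ≤ x → x ^ W ≤ N → ∀ r : ℤ, (|r| : ℝ) ≤ (x : ℝ) ^ (δ / 2) →
      |(langTrotter A B s (c + κ * v) r x : ℝ) - model A B s r x| ≤ √(max 1 (model A B s r (2 * x))) * (x : ℝ) ^ δ) ≤
    τ * num S N (fun _ => True)) ∧
  num S N (fun v => ¬ ∀ x : ℕ, X ≤ x → x ^ W ≤ N → ∀ r : ℤ, (|r| : ℝ) ≤ (x : ℝ) ^ (δ / 2) →
      |model A B (c + κ * v) r x - modelPairs A B r x| ≤ √(max 1 (modelPairs A B r (2 * x))) * (x : ℝ) ^ δ) ≤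
    τ * num S N (fun _ => True)

lemma num_eq (S : Set ℕ) (T : ℕ → Prop) (h : ∀ n, n ∈ S ↔ T n) (N : ℕ) (E : ℕ → Prop) : num S N E = (cnt T N E : ℝ) := by
  unfold num cnt
  congr 2
  ext n
  simp only [mem_filter, h]

/-- from one parameter to the Lang–Trotter counts -/
lemma lt_of_fine (S : Set ℕ) (T : ℕ → Prop) (h : ∀ n, n ∈ S ↔ T n) (κ c : ℤ) (N X W : ℕ) (δ τ : ℝ)
    (J : ∀ g : ℕ → ℕ → ℤ → ℝ, (∀ j, Sysb (g j)) → Few g → AlmostN T N κ c τ (Fine X W N δ g)) :
    LangTrotterFor S κ c N X W δ (τ + τ) := by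
  intro A B
  have hfew : ∀ σ : ℤ, σ = 1 ∨ σ = -1 → ∀ p : ℕ, p.Prime → ∀ (a n : ℤ) (Q : Finset ℕ), (∀ j ∈ Q, TrP A B (σ * j) p a n) →
      Q.card ≤ Nat.log 2 p + 3 := by
    intro σ hσ p _ a n Q hQ
    have h1 : Q.card ≤ 1 := by
      rw [card_le_one]
      intro j hj j' hj'
      have h2 := (hQ j hj).2
      have h3 := (hQ j' hj').2
      rw [h2] at h3
      have h4 : (j : ℤ) = j' := by
        rcases hσ with h | h <;> rw [h] at h3 <;> linarith
      exact_mod_cast h4
    omega
  obtain ⟨h1, h2⟩ := Pool.Agent.J4.H37.LT.two_count_N T X W N δ κ c τ J (fun j : ℕ => TrP A B (1 * j))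
    (fun j p _ a a' n n' => trp_per A B _ p a a' n n') (hfew 1 (Or.inl rfl))
  obtain ⟨h3, h4⟩ := Pool.Agent.J4.H37.LT.two_count_N T X W N δ κ c τ J (fun j : ℕ => TrP A B (-1 * j))
    (fun j p _ a a' n n' => trp_per A B _ p a a' n n') (hfew (-1) (Or.inr rfl))
  have hr : ∀ r : ℤ, ∃ j : ℕ, (r = 1 * j ∨ r = -1 * j) ∧ (j : ℝ) = |(r : ℝ)| := by
    intro r
    refine ⟨r.natAbs, ?_, ?_⟩
    · rcases Int.natAbs_eq r with h | h
      · left
        omega
      · right
        omega
    · rw [← Int.cast_abs, Int.abs_eq_natAbs]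
      rfl
  simp only [num_eq S T h]
  constructor
  · intro a
    refine Pool.Agent.J4.H37.LT.AlmostN.mono (Pool.Agent.J4.H37.LT.AlmostN.and (h1 a) (h3 a))
      (Q := fun n => ∀ x : ℕ, X ≤ x → x ^ W ≤ N → ∀ r : ℤ, (|r| : ℝ) ≤ (x : ℝ) ^ (δ / 2) →
      |(langTrotter A B a n r x : ℝ) - model A B a r x| ≤ √(max 1 (model A B a r (2 * x))) * (x : ℝ) ^ δ) ?_
    rintro n ⟨hn, hn'⟩ x hXx hxW r hrx
    rw [langTrotter_eq, model_eq, model_eq]
    obtain ⟨j, hj | hj, hj2⟩ := hr r
    · rw [hj]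
      exact (hn x hXx hxW).2 j (by rw [hj2]; exact hrx)
    · rw [hj]
      exact (hn' x hXx hxW).2 j (by rw [hj2]; exact hrx)
  · refine Pool.Agent.J4.H37.LT.AlmostN.mono (Pool.Agent.J4.H37.LT.AlmostN.and h2 h4)
      (Q := fun a => ∀ x : ℕ, X ≤ x → x ^ W ≤ N → ∀ r : ℤ, (|r| : ℝ) ≤ (x : ℝ) ^ (δ / 2) →
      |model A B a r x - modelPairs A B r x| ≤ √(max 1 (modelPairs A B r (2 * x))) * (x : ℝ) ^ δ) ?_
    rintro a ⟨hn, hn'⟩ x hXx hxW r hrx
    rw [model_eq, modelPairs_eq, modelPairs_eq]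
    obtain ⟨j, hj | hj, hj2⟩ := hr r
    · rw [hj]
      exact (hn x hXx hxW).2 j (by rw [hj2]; exact hrx)
    · rw [hj]
      exact (hn' x hXx hxW).2 j (by rw [hj2]; exact hrx)

/-- **Lang–Trotter counts for almost all members, with parameters in automatic sets of Ostrowski's numeration systems.** Let
`M` be a finite automaton and `0 < δ ≤ 1 / 2`.

(1) Let `α` be a sequence of partial quotients `α i ≥ 1` which is eventually periodic, and let `S` be the set of the integers
whose representation of Ostrowski is accepted by `M`. Suppose that the number of the elements of `S` below `N` is not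
bounded by a power of `log N`. There are `W` and `e` such that for `κ ≠ 0` and all sufficiently large `X` the following holds
for all `N`, all `c` and ALL polynomials `A(s, t)`, `B(s, t)` with integer coefficients: for EVERY integer `s`, almost all the
`t = c + κ v` with `v ∈ S`, `v < N`, up to a proportion of at most `4 (log N) ^ e X ^ (- δ / 2)`, have for ALL `x ≥ X` with
`x ^ W ≤ N` and ALL integers `|r| ≤ x ^ (δ / 2)`: with `m` the sum over `p ≤ x` of the proportion of the residues `τ` modulo `p`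
such that `y² = x³ + A(s, τ) x + B(s, τ)` has the trace `r`, and `m'` the same sum over `p ≤ 2 x`, the number of the primes
`p ≤ x` of good reduction of `y² = x³ + A(s, t) x + B(s, t)` with the trace `r` differs from `m` by at most
`(max 1 m') ^ (1 / 2) x ^ δ`. Also almost all the `s = c + κ v` have the property that `m` differs from the sum over
`p ≤ x` of the proportion of the PAIRS of parameters modulo `p` which have the trace `r` by at most `x ^ δ` times
the square root of the maximum of `1` and the sum of the proportions of the pairs over `p ≤ 2 x`.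

(2) Let `H ≥ 2`, and suppose that the number of the words of length at most `n` over `{0, …, H - 1}` without trailing
zeros which are accepted by `M` is not bounded by a polynomial in `n`. Let `Q` be given. The assertions of (1) hold, with
`W`, `e` and the bound for `X` which do not depend on `α`, for all the sequences `α` with `1 ≤ α i ≤ Q` for which these words have
different values, and for the set `S` of these values. -/
theorem result {σ : Type} [Finite σ] (M : DFA ℕ σ) (δ : ℝ) (hδ : 0 < δ) (hδ1 : δ ≤ 1 / 2) :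
    (∀ α : ℕ → ℕ, (∀ i, 1 ≤ i → 1 ≤ α i) → (∃ r p, 0 < p ∧ ∀ i, r < i → α (i + p) = α i) →
      (∀ k : ℕ, ∃ᶠ N : ℕ in atTop, Real.log N ^ k < num (value α '' (Ostrowski α ∩ M.accepts)) N (fun _ => True)) →
      ∃ W e : ℕ, 1 ≤ W ∧ ∀ κ : ℤ, κ ≠ 0 → ∃ X₀ : ℕ, ∀ X : ℕ, X₀ ≤ X → ∀ N : ℕ, ∀ c : ℤ,
        LangTrotterFor (value α '' (Ostrowski α ∩ M.accepts)) κ c N X W δ (4 * Real.log N ^ e * (X : ℝ) ^ (-(δ / 2)))) ∧
    (∀ H : ℕ, 2 ≤ H →
      (∀ k : ℕ, ∃ᶠ n : ℕ in atTop, (n : ℝ) ^ k < ({w : List ℕ | w ∈ Words H ∩ M.accepts ∧ w.length ≤ n}.ncard : ℝ)) →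
      ∀ Q : ℕ, ∃ W e : ℕ, 1 ≤ W ∧ ∀ κ : ℤ, κ ≠ 0 → ∃ X₀ : ℕ, ∀ X : ℕ, X₀ ≤ X → ∀ N : ℕ,
        ∀ α : ℕ → ℕ, (∀ i, 1 ≤ i → 1 ≤ α i ∧ α i ≤ Q) → Set.InjOn (value α) (Words H ∩ M.accepts) → ∀ c : ℤ,
        LangTrotterFor (value α '' (Words H ∩ M.accepts)) κ c N X W δ (4 * Real.log N ^ e * (X : ℝ) ^ (-(δ / 2)))) := by
  classical
  have := Fintype.ofFinite σ
  have h8 : ∀ (N X e : ℕ), 4 * Real.log N ^ e * (X : ℝ) ^ (-(δ / 2)) =
      Real.log N ^ e * (2 * (X : ℝ) ^ (-(δ / 2))) + Real.log N ^ e * (2 * (X : ℝ) ^ (-(δ / 2))) := by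
    intro N X e
    ring
  constructor
  · rintro α hα ⟨r, p, hp, hb⟩ hS
    have hnum : ∀ N, num (value α '' (Ostrowski α ∩ M.accepts)) N (fun _ => True) =
        (((range N).filter fun n => Pool.Agent.J4.H37.OA.Ost α M n).card : ℝ) := by
      intro N
      unfold num
      congr 2
      ext v
      simp only [mem_filter, and_true, ost_mem]
    obtain ⟨W, e, hW, h⟩ := Pool.Agent.J4.H37.LT.fine_ost α hα r p hp hb M
      (fun k => (hS k).mono fun N hN => by rw [hnum] at hN; exact hN) δ hδ hδ1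
    refine ⟨W, e, hW, fun κ hκ => ?_⟩
    obtain ⟨X₀, h⟩ := h κ hκ
    refine ⟨X₀, fun X hX N c => ?_⟩
    rw [h8]
    exact lt_of_fine _ _ (ost_mem α M) κ c N X W δ _ (fun g hg hfew => h X hX N c g hg hfew)
  · intro H hH hS Q
    have hHr : (1 : ℝ) < H := by exact_mod_cast (by omega : 1 < H)
    have hlogH : 0 < Real.log H := Real.log_pos hHr
    obtain ⟨W, e, hW, h⟩ := Pool.Agent.J4.H37.LT.fine_val H hH M (by
      intro k
      rw [Filter.frequently_atTop]
      intro N₁
      obtain ⟨R, hR⟩ := exists_nat_ge (Real.log H ^ k)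
      obtain ⟨n, hn, hnR⟩ := ((hS (k + 1)).and_eventually (Filter.eventually_ge_atTop (R + N₁))).exists
      refine ⟨H ^ n, ?_, ?_⟩
      · have : n < H ^ n := Nat.lt_pow_self (by omega)
        omega
      · rw [count_words H hH M n] at hn
        refine lt_of_le_of_lt ?_ hn
        push_cast
        rw [Real.log_pow, mul_pow, pow_succ]
        apply mul_le_mul_of_nonneg_left _ (by positivity)
        exact hR.trans (by exact_mod_cast (by omega : R ≤ n))) Q δ hδ hδ1
    refine ⟨W, e, hW, fun κ hκ => ?_⟩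
    obtain ⟨X₀, h⟩ := h κ hκ
    refine ⟨X₀, fun X hX N α hα hinj c => ?_⟩
    rw [h8]
    exact lt_of_fine _ (Val α H M) (word_mem H hH α M) κ c N X W δ _ (fun g hg hfew => h X hX N α hα
      (fun v v' hv hv' he => Nat.digits.injective H (hinj ⟨digits_mem H hH v, hv⟩ ⟨digits_mem H hH v', hv'⟩ he)) c g hg hfew)

end Pool.Agent.Results.MP_f1937f_nt.OstrowskiFamilies
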